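import Pool.Agent.helper13.BN.Defs

set_option autoImplicit false

/-!
# Zonal (Gegenbauer) polynomials
-/

open MeasureTheory Filter Topology Set Metric
open scoped ContDiff

noncomputable section
namespace Pool.Agent.helper13.BN

open Polynomial in
theorem Pz_zero (N : ℕ) (s : ℝ) : Pz N 0 s = 1 := by
  simp [Pz, PZ]

open Polynomial in
theorem Pz_one (N : ℕ) (s : ℝ) : Pz N 1 s = s := by
  simp [Pz, PZ]

open Polynomial in
theorem Pz_rec (N j : ℕ) (s : ℝ) (hN : 3 ≤ N) :
    ((j : ℝ) + 1 + N - 2) * Pz N (j + 2) s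
      = (2 * ((j : ℝ) + 1) + N - 2) * s * Pz N (j + 1) s - ((j : ℝ) + 1) * Pz N j s := by
  have hN' : (3 : ℝ) ≤ N := by exact_mod_cast hN
  have hj : (0 : ℝ) ≤ j := Nat.cast_nonneg j
  have hne : (j : ℝ) + 1 + N - 2 ≠ 0 := by
    have : (0 : ℝ) < (j : ℝ) + 1 + N - 2 := by linarith
    exact this.ne'
  have h : Pz N (j + 2) s = (1 / ((j : ℝ) + 1 + N - 2)) *
      ((2 * ((j : ℝ) + 1) + N - 2) * s * Pz N (j + 1) s - ((j : ℝ) + 1) * Pz N j s) := by
    simp only [Pz]
    rw [PZ]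
    simp only [eval_mul, eval_sub, eval_C, eval_X]
  rw [h]
  field_simp

theorem Pz_at_one (N j : ℕ) (hN : 3 ≤ N) : Pz N j 1 = 1 := by
  have hN' : (3 : ℝ) ≤ N := by exact_mod_cast hN
  have key : ∀ j : ℕ, Pz N j 1 = 1 ∧ Pz N (j + 1) 1 = 1 := by
    intro j
    induction j with
    | zero => exact ⟨Pz_zero N 1, Pz_one N 1⟩
    | succ j ih =>
      refine ⟨ih.2, ?_⟩
      have hj : (0 : ℝ) ≤ j := Nat.cast_nonneg j
      have hpos : (0 : ℝ) < (j : ℝ) + 1 + N - 2 := by linarith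
      have h := Pz_rec N j 1 hN
      rw [ih.1, ih.2] at h
      have h2 : ((j : ℝ) + 1 + N - 2) * Pz N (j + 2) 1 = ((j : ℝ) + 1 + N - 2) * 1 := by
        rw [h]; ring
      exact mul_left_cancel₀ hpos.ne' h2
  exact (key j).1

open Polynomial in
theorem Pz_neg (N j : ℕ) (s : ℝ) : Pz N j (-s) = (-1) ^ j * Pz N j s := by
  have key : ∀ j : ℕ, Pz N j (-s) = (-1) ^ j * Pz N j s ∧
      Pz N (j + 1) (-s) = (-1) ^ (j + 1) * Pz N (j + 1) s := by
    intro j
    induction j with
    | zero => 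
      refine ⟨by simp [Pz_zero], by simp [Pz_one]⟩
    | succ j ih =>
      refine ⟨ih.2, ?_⟩
      have h : ∀ s, Pz N (j + 2) s = (1 / ((j : ℝ) + 1 + N - 2)) *
          ((2 * ((j : ℝ) + 1) + N - 2) * s * Pz N (j + 1) s - ((j : ℝ) + 1) * Pz N j s) := by
        intro s
        simp only [Pz]
        rw [PZ]
        simp only [eval_mul, eval_sub, eval_C, eval_X]
      rw [h, h, ih.1, ih.2]
      ring
  exact (key j).1

theorem Pz_contDiff (N j : ℕ) : ContDiff ℝ ∞ (Pz N j) := by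
  have h : Pz N j = fun s => Polynomial.aeval s (PZ N j) := by
    funext s
    simp [Pz, Polynomial.aeval_def, Polynomial.eval₂_eq_eval_map]
  rw [h]
  exact Polynomial.contDiff_aeval _ _

/-- derivative of the zonal polynomial -/
def Dz (N j : ℕ) (s : ℝ) : ℝ := (Polynomial.derivative (PZ N j)).eval s

/-- second derivative of the zonal polynomial -/
def DDz (N j : ℕ) (s : ℝ) : ℝ :=
  (Polynomial.derivative (Polynomial.derivative (PZ N j))).eval s

theorem hasDerivAt_Pz (N j : ℕ) (s : ℝ) : HasDerivAt (Pz N j) (Dz N j s) s :=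
  Polynomial.hasDerivAt _ _

theorem hasDerivAt_Dz (N j : ℕ) (s : ℝ) : HasDerivAt (Dz N j) (DDz N j s) s :=
  Polynomial.hasDerivAt _ _

theorem deriv_Pz (N j : ℕ) : deriv (Pz N j) = Dz N j := by
  funext s; exact (hasDerivAt_Pz N j s).deriv

theorem deriv_Dz (N j : ℕ) : deriv (Dz N j) = DDz N j := by
  funext s; exact (hasDerivAt_Dz N j s).deriv

theorem Dz_zero (N : ℕ) (s : ℝ) : Dz N 0 s = 0 := by
  simp [Dz, PZ]

theorem Dz_one (N : ℕ) (s : ℝ) : Dz N 1 s = 1 := by
  simp [Dz, PZ]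

theorem continuous_Pz (N j : ℕ) : Continuous (Pz N j) := (Pz_contDiff N j).continuous

theorem continuous_Dz (N j : ℕ) : Continuous (Dz N j) :=
  (Polynomial.derivative (PZ N j)).continuous

theorem Dz_rec (N j : ℕ) (s : ℝ) (hN : 3 ≤ N) :
    ((j : ℝ) + 1 + N - 2) * Dz N (j + 2) s
      = (2 * ((j : ℝ) + 1) + N - 2) * (Pz N (j + 1) s + s * Dz N (j + 1) s)
        - ((j : ℝ) + 1) * Dz N j s := by
  have h1 : HasDerivAt (fun s => ((j : ℝ) + 1 + N - 2) * Pz N (j + 2) s)
      (((j : ℝ) + 1 + N - 2) * Dz N (j + 2) s) s :=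
    (hasDerivAt_Pz N (j + 2) s).const_mul _
  have h2 : HasDerivAt (fun s => (2 * ((j : ℝ) + 1) + N - 2) * s * Pz N (j + 1) s
      - ((j : ℝ) + 1) * Pz N j s)
      ((2 * ((j : ℝ) + 1) + N - 2) * 1 * Pz N (j + 1) s
        + (2 * ((j : ℝ) + 1) + N - 2) * s * Dz N (j + 1) s - ((j : ℝ) + 1) * Dz N j s) s := by
    refine HasDerivAt.sub (HasDerivAt.mul ?_ (hasDerivAt_Pz N (j + 1) s))
      ((hasDerivAt_Pz N j s).const_mul _)
    exact (hasDerivAt_id s).const_mul _
  have h3 : (fun s => ((j : ℝ) + 1 + N - 2) * Pz N (j + 2) s)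
      = (fun s => (2 * ((j : ℝ) + 1) + N - 2) * s * Pz N (j + 1) s
      - ((j : ℝ) + 1) * Pz N j s) := by
    funext s; exact Pz_rec N j s hN
  rw [h3] at h1
  rw [h1.unique h2]
  ring

/-- the two differential relations -/
theorem Dz_rel (N j : ℕ) (s : ℝ) (hN : 3 ≤ N) :
    (1 - s ^ 2) * Dz N (j + 1) s = ((j : ℝ) + 1) * (Pz N j s - s * Pz N (j + 1) s) ∧
    (1 - s ^ 2) * Dz N j s = ((j : ℝ) + N - 2) * (s * Pz N j s - Pz N (j + 1) s) := by
  have hN' : (3 : ℝ) ≤ N := by exact_mod_cast hN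
  induction j with
  | zero =>
    simp only [Nat.cast_zero, zero_add]
    rw [Dz_one, Pz_zero, Pz_one, Dz_zero]
    constructor <;> ring
  | succ j ih =>
    obtain ⟨hA, hB⟩ := ih
    have hj : (0 : ℝ) ≤ j := Nat.cast_nonneg j
    have hpos : (0 : ℝ) < (j : ℝ) + 1 + N - 2 := by linarith
    have hr := Pz_rec N j s hN
    have hd := Dz_rec N j s hN
    push_cast
    constructor
    · have : ((j : ℝ) + 1 + N - 2) * ((1 - s ^ 2) * Dz N (j + 1 + 1) s)
          = ((j : ℝ) + 1 + N - 2) * (((j : ℝ) + 1 + 1) * (Pz N (j + 1) s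
            - s * Pz N (j + 1 + 1) s)) := by
        have e : j + 1 + 1 = j + 2 := rfl
        rw [e]
        linear_combination (1 - s ^ 2) * hd + (2 * ((j : ℝ) + 1) + N - 2) * s * hA
          - ((j : ℝ) + 1) * hB + ((j : ℝ) + 2) * s * hr
      exact mul_left_cancel₀ hpos.ne' this
    · have e : j + 1 + 1 = j + 2 := rfl
      rw [e]
      linear_combination hA + hr

theorem Pz_ode' (N j : ℕ) (hN : 3 ≤ N) (s : ℝ) :
    (1 - s ^ 2) * DDz N j s - (N - 1) * s * Dz N j s
      = - ((j : ℝ) * (j + N - 2)) * Pz N j s := by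
  rcases Nat.eq_zero_or_pos j with rfl | hj
  · simp [DDz, Dz, PZ]
  obtain ⟨n, rfl⟩ : ∃ n, j = n + 1 := ⟨j - 1, by omega⟩
  -- polynomial identity
  set P := PZ N (n + 1) with hP
  set Q : Polynomial ℝ := (1 - Polynomial.X ^ 2) * Polynomial.derivative (Polynomial.derivative P)
    - Polynomial.C ((N : ℝ) - 1) * Polynomial.X * Polynomial.derivative P
    + Polynomial.C (((n + 1 : ℕ) : ℝ) * (((n + 1 : ℕ) : ℝ) + N - 2)) * P with hQ
  have hQeval : ∀ s, Q.eval s = (1 - s ^ 2) * DDz N (n + 1) s - (N - 1) * s * Dz N (n + 1) s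
      + (((n + 1 : ℕ) : ℝ) * (((n + 1 : ℕ) : ℝ) + N - 2)) * Pz N (n + 1) s := by
    intro s
    simp only [hQ, Polynomial.eval_add, Polynomial.eval_sub, Polynomial.eval_mul,
      Polynomial.eval_one, Polynomial.eval_pow, Polynomial.eval_X, Polynomial.eval_C]
    rfl
  have hderiv : ∀ s, -2 * s * Dz N (n + 1) s + (1 - s ^ 2) * DDz N (n + 1) s
      = ((n : ℝ) + 1) * (Dz N n s - (Pz N (n + 1) s + s * Dz N (n + 1) s)) := by
    intro s
    have h1 : HasDerivAt (fun s => (1 - s ^ 2) * Dz N (n + 1) s)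
        ((-(2 * s)) * Dz N (n + 1) s + (1 - s ^ 2) * DDz N (n + 1) s) s := by
      refine HasDerivAt.mul ?_ (hasDerivAt_Dz N (n + 1) s)
      have := (hasDerivAt_pow 2 s).const_sub 1
      simpa using this
    have h2 : HasDerivAt (fun s => ((n : ℝ) + 1) * (Pz N n s - s * Pz N (n + 1) s))
        (((n : ℝ) + 1) * (Dz N n s - (1 * Pz N (n + 1) s + s * Dz N (n + 1) s))) s := by
      refine HasDerivAt.const_mul _ (HasDerivAt.sub (hasDerivAt_Pz N n s) ?_)
      exact (hasDerivAt_id s).mul (hasDerivAt_Pz N (n + 1) s)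
    have h3 : (fun s => (1 - s ^ 2) * Dz N (n + 1) s)
        = fun s => ((n : ℝ) + 1) * (Pz N n s - s * Pz N (n + 1) s) := by
      funext s; exact (Dz_rel N n s hN).1
    rw [h3] at h1
    have := h1.unique h2
    linear_combination this
  have hz : (1 - Polynomial.X ^ 2 : Polynomial ℝ) * Q = 0 := by
    apply Polynomial.funext
    intro s
    rw [Polynomial.eval_mul, hQeval]
    simp only [Polynomial.eval_sub, Polynomial.eval_one, Polynomial.eval_pow, Polynomial.eval_X,
      Polynomial.eval_zero]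
    push_cast
    have hA := (Dz_rel N n s hN).1
    have hB := (Dz_rel N n s hN).2
    linear_combination (1 - s ^ 2) * hderiv s + ((n : ℝ) + 1) * hB
      - ((n : ℝ) + N - 2) * s * hA
  have hne : (1 - Polynomial.X ^ 2 : Polynomial ℝ) ≠ 0 := by
    intro h
    have := congrArg (Polynomial.eval 0) h
    simp at this
  have hQ0 : Q = 0 := by
    rcases mul_eq_zero.mp hz with h | h
    · exact absurd h hne
    · exact h
  have := hQeval s
  rw [hQ0, Polynomial.eval_zero] at this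
  linarith

/-- Gegenbauer equation -/
theorem Pz_ode (N j : ℕ) (hN : 3 ≤ N) (s : ℝ) :
    (1 - s ^ 2) * deriv (deriv (Pz N j)) s - (N - 1) * s * deriv (Pz N j) s
      = - ((j : ℝ) * (j + N - 2)) * Pz N j s := by
  rw [deriv_Pz, deriv_Dz]
  exact Pz_ode' N j hN s

theorem Pz_abs_le (N j : ℕ) (hN : 3 ≤ N) {s : ℝ} (hs : |s| ≤ 1) : |Pz N j s| ≤ 1 := by
  have hN' : (3 : ℝ) ≤ N := by exact_mod_cast hN
  rcases Nat.eq_zero_or_pos j with rfl | hj
  · simp [Pz_zero]
  have hj' : (1 : ℝ) ≤ j := by exact_mod_cast hj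
  set κ : ℝ := (j : ℝ) * (j + N - 2) with hκ
  have hκpos : 0 < κ := by
    apply mul_pos <;> linarith
  -- energy
  set En : ℝ → ℝ := fun s => Pz N j s ^ 2 + (1 - s ^ 2) * Dz N j s ^ 2 / κ with hEn
  have hder : ∀ s, HasDerivAt En (2 * (N - 2) * s * Dz N j s ^ 2 / κ) s := by
    intro s
    have h1 : HasDerivAt En (2 * Pz N j s * Dz N j s
        + ((-(2 * s)) * Dz N j s ^ 2 + (1 - s ^ 2) * (2 * Dz N j s * DDz N j s)) / κ) s := by
      refine HasDerivAt.add ?_ (HasDerivAt.div_const (HasDerivAt.mul ?_ ?_) κ)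
      · have := (hasDerivAt_Pz N j s).fun_pow 2
        simpa using this
      · have := (hasDerivAt_pow 2 s).const_sub 1
        simpa using this
      · have := (hasDerivAt_Dz N j s).fun_pow 2
        simpa using this
    convert h1 using 1
    have hode := Pz_ode' N j hN s
    rw [← hκ] at hode
    clear_value κ
    field_simp
    linear_combination (-Dz N j s) * hode
  have hmono : ∀ t ∈ Icc (0 : ℝ) 1, En t ≤ En 1 := by
    have hm : MonotoneOn En (Icc 0 1) := by
      apply monotoneOn_of_deriv_nonneg (convex_Icc 0 1)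
      · exact fun t _ => (hder t).continuousAt.continuousWithinAt
      · exact fun t _ => (hder t).differentiableAt.differentiableWithinAt
      · intro t ht
        rw [interior_Icc] at ht
        rw [(hder t).deriv]
        apply div_nonneg _ hκpos.le
        apply mul_nonneg _ (sq_nonneg _)
        apply mul_nonneg _ ht.1.le
        linarith
    intro t ht
    exact hm ht (right_mem_Icc.mpr zero_le_one) ht.2
  have hE1 : En 1 = 1 := by
    simp [hEn, Pz_at_one N j hN]
  have hpos : ∀ t ∈ Icc (0 : ℝ) 1, |Pz N j t| ≤ 1 := by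
    intro t ht
    have h1 := hmono t ht
    rw [hE1] at h1
    have h2 : Pz N j t ^ 2 ≤ 1 := by
      have : 0 ≤ (1 - t ^ 2) * Dz N j t ^ 2 / κ := by
        apply div_nonneg _ hκpos.le
        apply mul_nonneg _ (sq_nonneg _)
        nlinarith [ht.1, ht.2]
      have h3 : En t = Pz N j t ^ 2 + (1 - t ^ 2) * Dz N j t ^ 2 / κ := rfl
      linarith
    exact (sq_le_one_iff_abs_le_one _).mp h2
  rw [abs_le] at hs
  rcases le_total 0 s with h0 | h0
  · exact hpos s ⟨h0, hs.2⟩
  · have h1 := hpos (-s) ⟨by linarith, by linarith⟩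
    rw [Pz_neg, abs_mul] at h1
    simpa using h1

/-- multiplication by `s` -/
theorem Pz_mulX (N j : ℕ) (hN : 3 ≤ N) (s : ℝ) :
    s * Pz N (j + 1) s = (((j : ℝ) + 1 + N - 2) / (2 * ((j : ℝ) + 1) + N - 2)) * Pz N (j + 2) s
      + (((j : ℝ) + 1) / (2 * ((j : ℝ) + 1) + N - 2)) * Pz N j s := by
  have hN' : (3 : ℝ) ≤ N := by exact_mod_cast hN
  have hj : (0 : ℝ) ≤ j := Nat.cast_nonneg j
  have hpos : (0 : ℝ) < 2 * ((j : ℝ) + 1) + N - 2 := by linarith
  have h := Pz_rec N j s hN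
  rw [div_mul_eq_mul_div, div_mul_eq_mul_div, ← add_div, eq_div_iff hpos.ne']
  linear_combination (-1) * h

theorem mulX_sum (N : ℕ) (hN : 3 ≤ N) (m : ℕ) (c : ℕ → ℝ) : ∃ c' : ℕ → ℝ, ∀ s : ℝ,
    s * ∑ j ∈ Finset.range m, c j * Pz N j s = ∑ j ∈ Finset.range (m + 1), c' j * Pz N j s := by
  induction m with
  | zero => exact ⟨fun _ => 0, fun s => by simp⟩
  | succ m ih =>
    obtain ⟨c', hc'⟩ := ih
    rcases Nat.eq_zero_or_pos m with rfl | hm
    · refine ⟨fun j => if j = 1 then c 0 else 0, fun s => ?_⟩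
      simp [Pz_zero, Pz_one, mul_comm]
    · obtain ⟨n, rfl⟩ : ∃ n, m = n + 1 := ⟨m - 1, by omega⟩
      set α : ℝ := ((n : ℝ) + 1 + N - 2) / (2 * ((n : ℝ) + 1) + N - 2) with hα
      set β : ℝ := ((n : ℝ) + 1) / (2 * ((n : ℝ) + 1) + N - 2) with hβ
      refine ⟨fun j => if j = n + 2 then c (n + 1) * α
        else if j = n then c' n + c (n + 1) * β else c' j, fun s => ?_⟩
      rw [Finset.sum_range_succ (n := n + 1), mul_add, hc' s]
      have h1 : ∑ j ∈ Finset.range (n + 1 + 1 + 1), (if j = n + 2 then c (n + 1) * α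
        else if j = n then c' n + c (n + 1) * β else c' j) * Pz N j s
          = ∑ j ∈ Finset.range n, c' j * Pz N j s + (c' n + c (n + 1) * β) * Pz N n s
            + c' (n + 1) * Pz N (n + 1) s + c (n + 1) * α * Pz N (n + 2) s := by
        rw [Finset.sum_range_succ, Finset.sum_range_succ, Finset.sum_range_succ]
        congr 1
        · congr 1
          · congr 1
            · apply Finset.sum_congr rfl
              intro j hj
              rw [Finset.mem_range] at hj
              rw [if_neg (by omega), if_neg (by omega)]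
            · rw [if_neg (by omega), if_pos rfl]
          · rw [if_neg (by omega), if_neg (by omega)]
        · rw [if_pos (by omega)]
      rw [h1, Finset.sum_range_succ, Finset.sum_range_succ]
      have h2 := Pz_mulX N n hN s
      rw [← hα, ← hβ] at h2
      linear_combination c (n + 1) * h2

/-- the powers are combinations of zonal polynomials -/
theorem pow_eq_sum_Pz (N m : ℕ) (hN : 3 ≤ N) : ∃ c : ℕ → ℝ, ∀ s : ℝ,
    s ^ m = ∑ j ∈ Finset.range (m + 1), c j * Pz N j s := by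
  induction m with
  | zero => exact ⟨fun _ => 1, fun s => by simp [Pz_zero]⟩
  | succ m ih =>
    obtain ⟨c, hc⟩ := ih
    obtain ⟨c', hc'⟩ := mulX_sum N hN (m + 1) c
    refine ⟨c', fun s => ?_⟩
    rw [← hc' s, ← hc s]
    ring

end Pool.Agent.helper13.BN
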