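import Pool.Agent.helper73.BN.Zonal

set_option autoImplicit false

/-!
# Averages over the sphere, moments of zonal polynomials
-/

open MeasureTheory Filter Topology Set Metric
open scoped ContDiff

noncomputable section
namespace Pool.Agent.helper13.BN
variable {N : ℕ}

private theorem cast3 (hN : 3 ≤ N) : (3 : ℝ) ≤ N := by exact_mod_cast hN

private theorem wt_continuous (hN : 3 ≤ N) : Continuous (wt N) := by
  have h := cast3 hN
  unfold wt
  refine Continuous.rpow_const (by fun_prop) (fun s => Or.inr ?_)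
  linarith

private theorem wt_nonneg {s : ℝ} (hs : s ∈ Icc (-1 : ℝ) 1) : 0 ≤ wt N s := by
  unfold wt
  apply Real.rpow_nonneg
  nlinarith [hs.1, hs.2]

private theorem wt_pos {s : ℝ} (hs : s ∈ Ioo (-1 : ℝ) 1) : 0 < wt N s := by
  unfold wt
  apply Real.rpow_pos_of_pos
  nlinarith [hs.1, hs.2]

private theorem wt_le_one (hN : 3 ≤ N) {s : ℝ} (hs : s ∈ Icc (-1 : ℝ) 1) : wt N s ≤ 1 := by
  have h := cast3 hN
  unfold wt
  apply Real.rpow_le_one
  · nlinarith [hs.1, hs.2]
  · nlinarith [hs.1, hs.2]
  · linarith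

/-- total mass -/
def massW (N : ℕ) : ℝ := ∫ s in (-1 : ℝ)..1, wt N s

theorem massW_pos (hN : 3 ≤ N) : 0 < massW N := by
  unfold massW
  apply intervalIntegral.intervalIntegral_pos_of_pos_on
  · exact (wt_continuous hN).intervalIntegrable _ _
  · intro x hx
    exact wt_pos hx
  · norm_num

theorem av_eq (q : ℝ → ℝ) : av N q = (∫ s in (-1 : ℝ)..1, q s * wt N s) / massW N := rfl

theorem mom_intble (hN : 3 ≤ N) {q : ℝ → ℝ} (hq : ContinuousOn q (Icc (-1) 1)) :
    IntervalIntegrable (fun s => q s * wt N s) volume (-1) 1 := by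
  apply ContinuousOn.intervalIntegrable
  rw [uIcc_of_le (by norm_num)]
  exact hq.mul (wt_continuous hN).continuousOn

theorem av_const (hN : 3 ≤ N) (c : ℝ) : av N (fun _ => c) = c := by
  rw [av_eq, intervalIntegral.integral_const_mul]
  have : (∫ x in (-1 : ℝ)..1, wt N x) = massW N := rfl
  rw [this, mul_div_assoc, div_self (massW_pos hN).ne', mul_one]

theorem av_add (hN : 3 ≤ N) {q r : ℝ → ℝ} (hq : ContinuousOn q (Icc (-1) 1))
    (hr : ContinuousOn r (Icc (-1) 1)) : av N (fun s => q s + r s) = av N q + av N r := by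
  rw [av_eq, av_eq, av_eq, ← add_div, ← intervalIntegral.integral_add (mom_intble hN hq) (mom_intble hN hr)]
  congr 2
  funext s
  ring

theorem av_mul_left (_hN : 3 ≤ N) (c : ℝ) (q : ℝ → ℝ) :
    av N (fun s => c * q s) = c * av N q := by
  rw [av_eq, av_eq, ← mul_div_assoc, ← intervalIntegral.integral_const_mul]
  congr 2
  funext s
  ring

theorem av_mono (hN : 3 ≤ N) {q r : ℝ → ℝ} (hq : ContinuousOn q (Icc (-1) 1))
    (hr : ContinuousOn r (Icc (-1) 1)) (h : ∀ s ∈ Icc (-1 : ℝ) 1, q s ≤ r s) :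
    av N q ≤ av N r := by
  rw [av_eq, av_eq]
  apply div_le_div_of_nonneg_right _ (massW_pos hN).le
  apply intervalIntegral.integral_mono_on (by norm_num) (mom_intble hN hq) (mom_intble hN hr)
  intro s hs
  exact mul_le_mul_of_nonneg_right (h s hs) (wt_nonneg hs)

/-- symmetry under `s ↦ -s` -/
theorem av_neg (_hN : 3 ≤ N) (q : ℝ → ℝ) : av N (fun s => q (-s)) = av N q := by
  rw [av_eq, av_eq]
  congr 1
  have h := intervalIntegral.integral_comp_neg (f := fun s => q s * wt N s) (a := -1) (b := 1)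
  rw [neg_neg] at h
  rw [← h]
  congr 1
  funext s
  simp [wt]

theorem av_congr {q r : ℝ → ℝ} (h : ∀ s ∈ Icc (-1 : ℝ) 1, q s = r s) :
    av N q = av N r := by
  rw [av_eq, av_eq]
  congr 1
  apply intervalIntegral.integral_congr
  intro s hs
  rw [uIcc_of_le (by norm_num)] at hs
  simp only [h s hs]

/-- integration by parts -/
theorem av_ibp (hN : 3 ≤ N) {q : ℝ → ℝ} (hq : ContDiff ℝ 1 q) :
    av N (fun s => (1 - s ^ 2) * deriv q s) = av N (fun s => (N - 1) * s * q s) := by
  have h3 := cast3 hN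
  have hd : Continuous (deriv q) := hq.continuous_deriv le_rfl
  have hqc : Continuous q := hq.continuous
  have hwc := wt_continuous hN
  -- the primitive
  have key : ∫ s in (-1 : ℝ)..1, ((1 - s ^ 2) * deriv q s * wt N s
      - (N - 1) * s * q s * wt N s) = 0 := by
    have hFTC := intervalIntegral.integral_eq_sub_of_hasDerivAt_of_le
      (f := fun s => q s * ((1 - s ^ 2) * wt N s))
      (f' := fun s => (1 - s ^ 2) * deriv q s * wt N s - (N - 1) * s * q s * wt N s)
      (a := -1) (b := 1) (by norm_num) (by fun_prop) ?_ ?_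
    · rw [hFTC]
      simp
    · intro s hs
      have hpos : (0 : ℝ) < 1 - s ^ 2 := by nlinarith [hs.1, hs.2]
      have h1 : HasDerivAt (fun s : ℝ => 1 - s ^ 2) (-(2 * s)) s := by
        have := (hasDerivAt_pow 2 s).const_sub 1
        simpa using this
      have h2 : HasDerivAt (wt N) (-(2 * s) * (((N : ℝ) - 3) / 2)
          * (1 - s ^ 2) ^ (((N : ℝ) - 3) / 2 - 1)) s := by
        exact h1.rpow_const (Or.inl hpos.ne')
      have h3' := (hq.differentiable one_ne_zero s).hasDerivAt.fun_mul (h1.fun_mul h2)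
      refine h3'.congr_deriv ?_
      have h4 : (1 - s ^ 2) * (1 - s ^ 2) ^ (((N : ℝ) - 3) / 2 - 1) = wt N s := by
        unfold wt
        rw [Real.rpow_sub_one hpos.ne']
        field_simp
      linear_combination (-(2 * s) * (((N : ℝ) - 3) / 2) * q s) * h4
    · apply Continuous.intervalIntegrable
      fun_prop
  rw [intervalIntegral.integral_sub] at key
  · rw [av_eq, av_eq]
    congr 1
    linarith
  · apply Continuous.intervalIntegrable
    fun_prop
  · apply Continuous.intervalIntegrable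
    fun_prop

/-! ### Orthogonality -/

theorem av_lin2 (hN : 3 ≤ N) (c d : ℝ) {q r : ℝ → ℝ} (hq : Continuous q) (hr : Continuous r) :
    av N (fun s => c * q s + d * r s) = c * av N q + d * av N r := by
  rw [av_add hN (by fun_prop) (by fun_prop), av_mul_left hN, av_mul_left hN]

theorem av_lin3 (hN : 3 ≤ N) (c d e : ℝ) {q r t : ℝ → ℝ} (hq : Continuous q) (hr : Continuous r)
    (ht : Continuous t) :
    av N (fun s => c * q s + d * r s + e * t s) = c * av N q + d * av N r + e * av N t := by
  rw [av_add hN (by fun_prop) (by fun_prop), av_lin2 hN c d hq hr, av_mul_left hN]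

theorem continuous_DDz (N j : ℕ) : Continuous (DDz N j) :=
  (Polynomial.derivative (Polynomial.derivative (PZ N j))).continuous

/-- Green's formula -/
theorem av_green (hN : 3 ≤ N) (i j : ℕ) :
    av N (fun s => (1 - s ^ 2) * Dz N i s * Dz N j s)
      = ((i : ℝ) * (i + N - 2)) * av N (fun s => Pz N i s * Pz N j s) := by
  have hP := continuous_Pz N i
  have hP' := continuous_Pz N j
  have hD := continuous_Dz N i
  have hD' := continuous_Dz N j
  have hDD := continuous_DDz N i
  have h1 := av_ibp hN (q := fun s => Dz N i s * Pz N j s) (by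
    apply ContDiff.mul
    · have : Dz N i = fun s => Polynomial.aeval s (Polynomial.derivative (PZ N i)) := by
        funext s
        simp [Dz, Polynomial.aeval_def, Polynomial.eval₂_eq_eval_map]
      rw [this]
      exact Polynomial.contDiff_aeval _ _
    · exact (Pz_contDiff N j).of_le (by exact_mod_cast le_top))
  have h2 : ∀ s, deriv (fun s => Dz N i s * Pz N j s) s
      = DDz N i s * Pz N j s + Dz N i s * Dz N j s := fun s =>
    ((hasDerivAt_Dz N i s).mul (hasDerivAt_Pz N j s)).deriv
  simp_rw [h2] at h1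
  have h3 : av N (fun s => (1 - s ^ 2) * (DDz N i s * Pz N j s + Dz N i s * Dz N j s))
      = av N (fun s => (1 - s ^ 2) * DDz N i s * Pz N j s)
        + av N (fun s => (1 - s ^ 2) * Dz N i s * Dz N j s) := by
    rw [← av_add hN (by fun_prop) (by fun_prop)]
    congr 1
    funext s
    ring
  have h4 : av N (fun s => (1 - s ^ 2) * DDz N i s * Pz N j s)
      = av N (fun s => (N - 1) * s * (Dz N i s * Pz N j s))
        + av N (fun s => (-((i : ℝ) * (i + N - 2))) * (Pz N i s * Pz N j s)) := by
    rw [← av_add hN (by fun_prop) (by fun_prop)]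
    congr 1
    funext s
    linear_combination (Pz N j s) * Pz_ode' N i hN s
  rw [av_mul_left hN] at h4
  rw [h3, h4] at h1
  linarith

theorem av_Pz_orth (hN : 3 ≤ N) {i j : ℕ} (h : i ≠ j) :
    av N (fun s => Pz N i s * Pz N j s) = 0 := by
  have h3 := cast3 hN
  have h1 := av_green hN i j
  have h2 := av_green hN j i
  have e1 : av N (fun s => (1 - s ^ 2) * Dz N i s * Dz N j s)
      = av N (fun s => (1 - s ^ 2) * Dz N j s * Dz N i s) := by
    congr 1; funext s; ring
  have e2 : av N (fun s => Pz N i s * Pz N j s) = av N (fun s => Pz N j s * Pz N i s) := by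
    congr 1; funext s; ring
  rw [e1, h2, ← e2] at h1
  have hi : (0 : ℝ) ≤ i := Nat.cast_nonneg i
  have hj : (0 : ℝ) ≤ j := Nat.cast_nonneg j
  have hne : ((i : ℝ) - j) * (i + j + N - 2) ≠ 0 := by
    apply mul_ne_zero
    · rw [sub_ne_zero]; exact_mod_cast h
    · have : (0 : ℝ) < i + j + N - 2 := by linarith
      exact this.ne'
  have h4 : ((i : ℝ) - j) * (i + j + N - 2) * av N (fun s => Pz N i s * Pz N j s) = 0 := by
    linear_combination (-1) * h1
  exact (mul_eq_zero.mp h4).resolve_left hne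

/-- the second moments -/
def hh (N j : ℕ) : ℝ := av N (fun s => Pz N j s ^ 2)

theorem hh_zero (hN : 3 ≤ N) : hh N 0 = 1 := by
  unfold hh
  simp_rw [Pz_zero]
  simpa using av_const hN 1

theorem hh_rec (hN : 3 ≤ N) (n : ℕ) :
    ((n : ℝ) + N - 2) * (2 * n + N) * hh N (n + 1) = (2 * n + N - 2) * (n + 1) * hh N n := by
  have h3 := cast3 hN
  have hn : (0 : ℝ) ≤ n := Nat.cast_nonneg n
  -- x_n
  have hA : (2 * (n : ℝ) + N) * av N (fun s => s * Pz N (n + 1) s * Pz N n s)
      = ((n : ℝ) + 1) * hh N n := by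
    have hP := continuous_Pz N n
    have hP1 := continuous_Pz N (n + 1)
    have hP2 := continuous_Pz N (n + 2)
    have h1 : av N (fun s => ((n : ℝ) + 1 + N - 2) * (Pz N (n + 2) s * Pz N n s))
        = av N (fun s => (2 * ((n : ℝ) + 1) + N - 2) * (s * Pz N (n + 1) s * Pz N n s)
          + (-((n : ℝ) + 1)) * (Pz N n s ^ 2)) := by
      congr 1
      funext s
      linear_combination Pz N n s * Pz_rec N n s hN
    rw [av_mul_left hN, av_Pz_orth hN (by omega), av_lin2 hN _ _ (by fun_prop) (by fun_prop)] at h1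
    have h2 : av N (fun s => Pz N n s ^ 2) = hh N n := rfl
    rw [h2] at h1
    linarith
  have hB : ((n : ℝ) + N - 2) * hh N (n + 1)
      = (2 * n + N - 2) * av N (fun s => s * Pz N (n + 1) s * Pz N n s) := by
    rcases Nat.eq_zero_or_pos n with rfl | hpos
    · unfold hh
      simp only [Nat.cast_zero, zero_add, mul_zero]
      congr 2
      funext s
      rw [Pz_one, Pz_zero]
      ring
    · obtain ⟨k, rfl⟩ : ∃ k, n = k + 1 := ⟨n - 1, by omega⟩
      have hP := continuous_Pz N k
      have hP1 := continuous_Pz N (k + 1)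
      have hP2 := continuous_Pz N (k + 2)
      have h1 : av N (fun s => ((k : ℝ) + 1 + N - 2) * (Pz N (k + 2) s ^ 2))
          = av N (fun s => (2 * ((k : ℝ) + 1) + N - 2) * (s * Pz N (k + 2) s * Pz N (k + 1) s)
            + (-((k : ℝ) + 1)) * (Pz N k s * Pz N (k + 2) s)) := by
        congr 1
        funext s
        linear_combination Pz N (k + 2) s * Pz_rec N k s hN
      rw [av_mul_left hN, av_lin2 hN _ _ (by fun_prop) (by fun_prop),
        av_Pz_orth hN (i := k) (j := k + 2) (by omega)] at h1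
      unfold hh
      push_cast
      have e : k + 1 + 1 = k + 2 := rfl
      rw [e]
      linarith
  linear_combination (2 * (n : ℝ) + N) * hB + (2 * (n : ℝ) + N - 2) * hA

theorem hh_pos (hN : 3 ≤ N) (n : ℕ) : 0 < hh N n := by
  have h3 := cast3 hN
  induction n with
  | zero => rw [hh_zero hN]; norm_num
  | succ n ih =>
    have hn : (0 : ℝ) ≤ n := Nat.cast_nonneg n
    have h := hh_rec hN n
    have hp : 0 < (2 * (n : ℝ) + N - 2) * (n + 1) * hh N n := by
      apply mul_pos (mul_pos _ _) ih <;> linarith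
    rw [← h] at hp
    have hq : 0 < ((n : ℝ) + N - 2) * (2 * n + N) := by
      apply mul_pos <;> linarith
    exact (pos_iff_pos_of_mul_pos hp).mp hq

theorem av_Pz_sq_pos (hN : 3 ≤ N) (j : ℕ) : 0 < av N (fun s => Pz N j s ^ 2) := hh_pos hN j

theorem hh_succ_le (hN : 3 ≤ N) (n : ℕ) :
    (2 * (n : ℝ) + N) * hh N (n + 1) ≤ (2 * n + N - 2) * hh N n := by
  have h3 := cast3 hN
  have hn : (0 : ℝ) ≤ n := Nat.cast_nonneg n
  have h := hh_rec hN n
  have hp := hh_pos hN n
  have hq : 0 < (n : ℝ) + N - 2 := by linarith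
  have h1 : ((n : ℝ) + N - 2) * ((2 * (n : ℝ) + N) * hh N (n + 1))
      ≤ ((n : ℝ) + N - 2) * ((2 * n + N - 2) * hh N n) := by
    have h2 : (2 * (n : ℝ) + N - 2) * (n + 1) * hh N n
        ≤ (2 * (n : ℝ) + N - 2) * (n + N - 2) * hh N n := by
      apply mul_le_mul_of_nonneg_right _ hp.le
      apply mul_le_mul_of_nonneg_left <;> linarith
    linarith
  exact le_of_mul_le_mul_left h1 hq

theorem hh_anti (hN : 3 ≤ N) (n : ℕ) : hh N (n + 1) ≤ hh N n := by
  have h3 := cast3 hN
  have hn : (0 : ℝ) ≤ n := Nat.cast_nonneg n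
  have h := hh_succ_le hN n
  have hp := hh_pos hN n
  have hq : 0 < 2 * (n : ℝ) + N := by linarith
  have h1 : (2 * (n : ℝ) + N) * hh N (n + 1) ≤ (2 * (n : ℝ) + N) * hh N n := by
    linarith
  exact le_of_mul_le_mul_left h1 hq

theorem hh_le (hN : 3 ≤ N) (n : ℕ) : (2 * (n : ℝ) + N - 2) * hh N n ≤ N - 2 := by
  have h3 := cast3 hN
  induction n with
  | zero => rw [hh_zero hN]; simp
  | succ n ih =>
    have h := hh_succ_le hN n
    push_cast
    linarith

theorem hh_ge (hN : 3 ≤ N) (n : ℕ) : hh N n ≤ (3 * N) * hh N (n + 1) := by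
  have h3 := cast3 hN
  have hn : (0 : ℝ) ≤ n := Nat.cast_nonneg n
  have h := hh_rec hN n
  have hp := hh_pos hN (n + 1)
  have hq : 0 < (2 * (n : ℝ) + N - 2) * (n + 1) := by
    apply mul_pos <;> linarith
  have h1 : (2 * (n : ℝ) + N - 2) * (n + 1) * hh N n
      ≤ (2 * (n : ℝ) + N - 2) * (n + 1) * ((3 * N) * hh N (n + 1)) := by
    rw [← h, ← mul_assoc]
    apply mul_le_mul_of_nonneg_right _ hp.le
    have e1 : (n : ℝ) + N - 2 ≤ (n + 1) * N := by nlinarith
    have e2 : 2 * (n : ℝ) + N ≤ 3 * (2 * n + N - 2) := by linarith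
    calc ((n : ℝ) + N - 2) * (2 * n + N) ≤ ((n + 1) * N) * (3 * (2 * n + N - 2)) := by
          apply mul_le_mul e1 e2 <;> nlinarith
      _ = (2 * (n : ℝ) + N - 2) * (n + 1) * (3 * N) := by ring
  exact le_of_mul_le_mul_left h1 hq

theorem av_Pz_sq_tendsto (hN : 3 ≤ N) :
    Tendsto (fun j => av N (fun s => Pz N j s ^ 2)) atTop (𝓝 0) := by
  have h3 := cast3 hN
  have hb : ∀ j : ℕ, hh N j ≤ ((N : ℝ) - 2) / ((j : ℝ) + 1) := by
    intro j
    have hj : (0 : ℝ) ≤ j := Nat.cast_nonneg j
    rw [le_div_iff₀ (by linarith)]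
    have h := hh_le hN j
    have hp := hh_pos hN j
    nlinarith
  have ht : Tendsto (fun j : ℕ => ((N : ℝ) - 2) / ((j : ℝ) + 1)) atTop (𝓝 0) := by
    have := (tendsto_one_div_add_atTop_nhds_zero_nat (𝕜 := ℝ)).const_mul ((N : ℝ) - 2)
    simp only [mul_zero] at this
    refine this.congr (fun j => ?_)
    ring
  exact squeeze_zero (fun j => (hh_pos hN j).le) hb ht

/-! ### Weak limit of the densities `P_l² / h_l` -/

theorem hh_anti_le (hN : 3 ≤ N) {m n : ℕ} (h : m ≤ n) : hh N n ≤ hh N m := by
  induction n, h using Nat.le_induction with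
  | base => exact le_rfl
  | succ n _ ih => exact (hh_anti hN n).trans ih

theorem hh_ge_add (hN : 3 ≤ N) (n k : ℕ) : hh N n ≤ (3 * N) ^ k * hh N (n + k) := by
  have h3 := cast3 hN
  induction k with
  | zero => simp
  | succ k ih =>
    have h := hh_ge hN (n + k)
    have : (0 : ℝ) ≤ (3 * N) ^ k := by positivity
    calc hh N n ≤ (3 * N) ^ k * hh N (n + k) := ih
      _ ≤ (3 * N) ^ k * ((3 * N) * hh N (n + k + 1)) := mul_le_mul_of_nonneg_left h this
      _ = (3 * N) ^ (k + 1) * hh N (n + (k + 1)) := by ring_nf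

/-- Chebyshev polynomial as a function -/
def Tc (m : ℕ) (s : ℝ) : ℝ := (Polynomial.Chebyshev.T ℝ (m : ℤ)).eval s

theorem Tc_zero (s : ℝ) : Tc 0 s = 1 := by simp [Tc]

theorem Tc_one (s : ℝ) : Tc 1 s = s := by simp [Tc]

theorem Tc_rec (m : ℕ) (s : ℝ) : Tc (m + 2) s = 2 * s * Tc (m + 1) s - Tc m s := by
  have h := Polynomial.Chebyshev.T_add_two ℝ (m : ℤ)
  unfold Tc
  push_cast
  rw [h]
  simp

theorem continuous_Tc (m : ℕ) : Continuous (Tc m) :=
  (Polynomial.Chebyshev.T ℝ (m : ℤ)).continuous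

/-- the error in `T_m P_l ≈ (P_{l+m} + P_{l-m})/2`, squared mean, at `l = k + m` -/
def eT (N m l : ℕ) : ℝ :=
  av N (fun s => (Tc m s * Pz N l s - (Pz N (l + m) s + Pz N (l - m) s) / 2) ^ 2)

/-- the error in `s P_n ≈ (P_{n+1} + P_{n-1})/2` -/
def eR (N n : ℕ) : ℝ :=
  av N (fun s => (s * Pz N (n + 1) s - (Pz N (n + 2) s + Pz N n s) / 2) ^ 2)

theorem eR_le (hN : 3 ≤ N) (n : ℕ) : eR N n ≤ (N / ((n : ℝ) + 1)) ^ 2 * hh N n := by
  have h3 := cast3 hN
  have hn : (0 : ℝ) ≤ n := Nat.cast_nonneg n
  have hpos : (0 : ℝ) < 2 * ((n : ℝ) + 1) + N - 2 := by linarith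
  have hP := continuous_Pz N n
  have hP1 := continuous_Pz N (n + 1)
  have hP2 := continuous_Pz N (n + 2)
  set γ : ℝ := ((N : ℝ) - 2) / (2 * (2 * ((n : ℝ) + 1) + N - 2)) with hγ
  have h1 : ∀ s, s * Pz N (n + 1) s - (Pz N (n + 2) s + Pz N n s) / 2
      = γ * (Pz N (n + 2) s - Pz N n s) := by
    intro s
    have h := Pz_rec N n s hN
    rw [hγ]
    field_simp
    linear_combination (-2) * h
  have h2 : eR N n ≤ av N (fun s => (2 * γ ^ 2) * Pz N (n + 2) s ^ 2
      + (2 * γ ^ 2) * Pz N n s ^ 2) := by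
    unfold eR
    apply av_mono hN (by fun_prop) (by fun_prop)
    intro s _
    rw [h1]
    nlinarith [mul_nonneg (sq_nonneg γ) (sq_nonneg (Pz N (n + 2) s + Pz N n s))]
  rw [av_lin2 hN _ _ (by fun_prop) (by fun_prop)] at h2
  have h4 : hh N (n + 2) ≤ hh N n := hh_anti_le hN (by omega)
  have h5 : av N (fun s => Pz N (n + 2) s ^ 2) = hh N (n + 2) := rfl
  have h6 : av N (fun s => Pz N n s ^ 2) = hh N n := rfl
  rw [h5, h6] at h2
  have hγ0 : 0 ≤ γ := by
    rw [hγ]
    apply div_nonneg <;> linarith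
  have h7 : 2 * γ ≤ N / ((n : ℝ) + 1) := by
    rw [hγ, le_div_iff₀ (by linarith)]
    rw [mul_div_assoc', div_mul_eq_mul_div, div_le_iff₀ (by linarith)]
    nlinarith
  have h8 : (2 * γ) ^ 2 ≤ (N / ((n : ℝ) + 1)) ^ 2 := pow_le_pow_left₀ (by linarith) h7 2
  calc eR N n ≤ 2 * γ ^ 2 * hh N (n + 2) + 2 * γ ^ 2 * hh N n := h2
    _ ≤ 2 * γ ^ 2 * hh N n + 2 * γ ^ 2 * hh N n := by
        have : 0 ≤ 2 * γ ^ 2 := by positivity
        nlinarith
    _ = (2 * γ) ^ 2 * hh N n := by ring
    _ ≤ _ := mul_le_mul_of_nonneg_right h8 (hh_pos hN n).le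

theorem eT_nonneg (hN : 3 ≤ N) (m l : ℕ) : 0 ≤ eT N m l := by
  have h := av_const hN 0
  rw [← h]
  unfold eT
  have hP := continuous_Pz N l
  have hP1 := continuous_Pz N (l + m)
  have hP2 := continuous_Pz N (l - m)
  have hT := continuous_Tc m
  apply av_mono hN (by fun_prop) (by fun_prop)
  intro s _
  positivity

theorem eT_step (hN : 3 ≤ N) (m l : ℕ) (hml : m + 2 ≤ l) :
    eT N (m + 2) l ≤ 16 * eT N (m + 1) l + 4 * eT N m l + 4 * eR N (l + m)
      + 4 * eR N (l - m - 2) := by
  have hT := continuous_Tc m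
  have hT1 := continuous_Tc (m + 1)
  have hT2 := continuous_Tc (m + 2)
  obtain ⟨k, rfl⟩ : ∃ k, l = m + 2 + k := ⟨l - (m + 2), by omega⟩
  have e1 : m + 2 + k - m = k + 2 := by omega
  have e2 : m + 2 + k - (m + 1) = k + 1 := by omega
  have e3 : m + 2 + k - (m + 2) = k := by omega
  have e4 : m + 2 + k - m - 2 = k := by omega
  unfold eT eR
  rw [e4, e1, e2, e3]
  set l := m + 2 + k with hl
  have hP := continuous_Pz N l
  have hPa := continuous_Pz N (l + (m + 2))
  have hPb := continuous_Pz N (l + (m + 1))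
  have hPc := continuous_Pz N (l + m)
  have hPd := continuous_Pz N k
  have hPe := continuous_Pz N (k + 1)
  have hPf := continuous_Pz N (k + 2)
  have hle : av N (fun s => (Tc (m + 2) s * Pz N l s
        - (Pz N (l + (m + 2)) s + Pz N k s) / 2) ^ 2)
      ≤ av N (fun s => 16 * (Tc (m + 1) s * Pz N l s
          - (Pz N (l + (m + 1)) s + Pz N (k + 1) s) / 2) ^ 2
        + 4 * (Tc m s * Pz N l s - (Pz N (l + m) s + Pz N (k + 2) s) / 2) ^ 2
        + 4 * ((s * Pz N (l + (m + 1)) s - (Pz N (l + (m + 2)) s + Pz N (l + m) s) / 2) ^ 2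
        + (s * Pz N (k + 1) s - (Pz N (k + 2) s + Pz N k s) / 2) ^ 2)) := by
    apply av_mono hN (by fun_prop) (by fun_prop)
    intro s hs
    rw [Tc_rec]
    set A := Tc (m + 1) s * Pz N l s - (Pz N (l + (m + 1)) s + Pz N (k + 1) s) / 2 with hA
    set B := Tc m s * Pz N l s - (Pz N (l + m) s + Pz N (k + 2) s) / 2 with hB
    set C := s * Pz N (l + (m + 1)) s - (Pz N (l + (m + 2)) s + Pz N (l + m) s) / 2 with hC
    set D := s * Pz N (k + 1) s - (Pz N (k + 2) s + Pz N k s) / 2 with hD
    have hid : (2 * s * Tc (m + 1) s - Tc m s) * Pz N l s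
        - (Pz N (l + (m + 2)) s + Pz N k s) / 2 = 2 * s * A - B + C + D := by
      rw [hA, hB, hC, hD]; ring
    rw [hid]
    have hs2 : s ^ 2 ≤ 1 := by nlinarith [hs.1, hs.2]
    have h1 : (2 * s * A) ^ 2 ≤ 4 * A ^ 2 := by nlinarith [sq_nonneg A]
    nlinarith [sq_nonneg (2 * s * A + B), sq_nonneg (2 * s * A - C), sq_nonneg (2 * s * A - D),
      sq_nonneg (B + C), sq_nonneg (B + D), sq_nonneg (C - D)]
  refine hle.trans (le_of_eq ?_)
  rw [av_lin3 hN 16 4 4 (by fun_prop) (by fun_prop) (by fun_prop), av_add hN (by fun_prop)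
    (by fun_prop)]
  have e5 : l + (m + 1) = l + m + 1 := rfl
  have e6 : l + (m + 2) = l + m + 2 := rfl
  rw [e5, e6]
  ring

theorem eT_tendsto (hN : 3 ≤ N) (m : ℕ) :
    Tendsto (fun l => eT N m l / hh N l) atTop (𝓝 0) := by
  have h3 := cast3 hN
  -- the remainder terms
  have hR1 : ∀ m : ℕ, Tendsto (fun l => eR N (l + m) / hh N l) atTop (𝓝 0) := by
    intro m
    have hb : ∀ l : ℕ, eR N (l + m) / hh N l ≤ (N : ℝ) ^ 2 * (1 / ((l : ℝ) + 1)) := by
      intro l
      have hl : (0 : ℝ) ≤ l := Nat.cast_nonneg l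
      have hm : (0 : ℝ) ≤ m := Nat.cast_nonneg m
      rw [div_le_iff₀ (hh_pos hN l)]
      have h1 := eR_le hN (l + m)
      have h2 : hh N (l + m) ≤ hh N l := hh_anti_le hN (by omega)
      have h4 : ((N : ℝ) / (((l + m : ℕ) : ℝ) + 1)) ^ 2 ≤ (N : ℝ) ^ 2 * (1 / ((l : ℝ) + 1)) := by
        rw [div_pow, div_eq_mul_one_div]
        apply mul_le_mul_of_nonneg_left _ (by positivity)
        apply one_div_le_one_div_of_le (by linarith)
        push_cast
        nlinarith
      have h5 : 0 ≤ (N : ℝ) ^ 2 * (1 / ((l : ℝ) + 1)) := by positivity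
      calc eR N (l + m) ≤ _ := h1
        _ ≤ (N : ℝ) ^ 2 * (1 / ((l : ℝ) + 1)) * hh N l :=
          mul_le_mul h4 h2 (hh_pos hN _).le h5
    have hnn : ∀ l : ℕ, 0 ≤ eR N (l + m) / hh N l := by
      intro l
      apply div_nonneg _ (hh_pos hN l).le
      have h := av_const hN 0
      rw [← h]
      unfold eR
      have hP1 := continuous_Pz N (l + m)
      have hP2 := continuous_Pz N (l + m + 1)
      have hP3 := continuous_Pz N (l + m + 2)
      apply av_mono hN (by fun_prop) (by fun_prop)
      intro s _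
      positivity
    have ht : Tendsto (fun l : ℕ => (N : ℝ) ^ 2 * (1 / ((l : ℝ) + 1))) atTop (𝓝 0) := by
      have := (tendsto_one_div_add_atTop_nhds_zero_nat (𝕜 := ℝ)).const_mul ((N : ℝ) ^ 2)
      simpa using this
    exact squeeze_zero hnn hb ht
  have hR2 : ∀ m : ℕ, Tendsto (fun l => eR N (l - m) / hh N l) atTop (𝓝 0) := by
    intro m
    have h1 := hR1 0
    simp only [add_zero] at h1
    have h2 : Tendsto (fun k => (3 * (N : ℝ)) ^ m * (eR N k / hh N k)) atTop (𝓝 0) := by
      simpa using h1.const_mul ((3 * (N : ℝ)) ^ m)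
    have h4 : Tendsto (fun k => eR N k / hh N (k + m)) atTop (𝓝 0) := by
      refine squeeze_zero ?_ ?_ h2
      · intro k
        apply div_nonneg _ (hh_pos hN _).le
        have h := av_const hN 0
        rw [← h]
        unfold eR
        have hP1 := continuous_Pz N k
        have hP2 := continuous_Pz N (k + 1)
        have hP3 := continuous_Pz N (k + 2)
        apply av_mono hN (by fun_prop) (by fun_prop)
        intro s _
        positivity
      · intro k
        have hnn : 0 ≤ eR N k := by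
          have h := av_const hN 0
          rw [← h]
          unfold eR
          have hP1 := continuous_Pz N k
          have hP2 := continuous_Pz N (k + 1)
          have hP3 := continuous_Pz N (k + 2)
          apply av_mono hN (by fun_prop) (by fun_prop)
          intro s _
          positivity
        have h5 := hh_ge_add hN k m
        have p1 := hh_pos hN k
        have p2 := hh_pos hN (k + m)
        rw [mul_div_assoc', div_le_div_iff₀ p2 p1]
        nlinarith
    have h5 := h4.comp (tendsto_sub_atTop_nat m)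
    refine h5.congr' ?_
    filter_upwards [eventually_ge_atTop m] with l hl
    simp only [Function.comp_apply]
    rw [Nat.sub_add_cancel hl]
  have key : Tendsto (fun l => eT N m l / hh N l) atTop (𝓝 0) ∧
      Tendsto (fun l => eT N (m + 1) l / hh N l) atTop (𝓝 0) := by
    induction m with
    | zero =>
      constructor
      · have : ∀ l, eT N 0 l / hh N l = 0 := by
          intro l
          have : eT N 0 l = 0 := by
            unfold eT
            rw [← av_const hN 0]
            congr 1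
            funext s
            rw [Tc_zero]
            simp
          rw [this, zero_div]
        simp_rw [this]
        exact tendsto_const_nhds
      · have h := hR2 1
        refine h.congr' ?_
        filter_upwards [eventually_ge_atTop 1] with l hl
        obtain ⟨k, rfl⟩ : ∃ k, l = k + 1 := ⟨l - 1, by omega⟩
        simp only [Nat.add_sub_cancel, zero_add]
        unfold eR eT
        simp_rw [Tc_one]
        rfl
    | succ m ih =>
      refine ⟨ih.2, ?_⟩
      have hsum : Tendsto (fun l => 16 * (eT N (m + 1) l / hh N l) + 4 * (eT N m l / hh N l)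
          + 4 * (eR N (l + m) / hh N l) + 4 * (eR N (l - (m + 2)) / hh N l)) atTop (𝓝 0) := by
        have := (((ih.2.const_mul 16).add (ih.1.const_mul 4)).add ((hR1 m).const_mul 4)).add
          ((hR2 (m + 2)).const_mul 4)
        simpa using this
      refine squeeze_zero' ?_ ?_ hsum
      · exact Eventually.of_forall (fun l => div_nonneg (eT_nonneg hN _ _) (hh_pos hN l).le)
      · filter_upwards [eventually_ge_atTop (m + 2)] with l hl
        have h1 := eT_step hN m l hl
        have p := hh_pos hN l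
        have e : l - m - 2 = l - (m + 2) := by omega
        rw [e] at h1
        rw [div_le_iff₀ p]
        have : (16 * (eT N (m + 1) l / hh N l) + 4 * (eT N m l / hh N l)
          + 4 * (eR N (l + m) / hh N l) + 4 * (eR N (l - (m + 2)) / hh N l)) * hh N l
          = 16 * eT N (m + 1) l + 4 * eT N m l + 4 * eR N (l + m)
      + 4 * eR N (l - (m + 2)) := by
          field_simp
        rw [this]
        exact h1
  exact key.1

/-- Chebyshev polynomials have zero limit -/
theorem Tc_tendsto (hN : 3 ≤ N) {m : ℕ} (hm : 1 ≤ m) :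
    Tendsto (fun l => av N (fun s => Pz N l s ^ 2 * Tc m s) / hh N l) atTop (𝓝 0) := by
  rw [Metric.tendsto_atTop]
  intro ε hε
  have h1 := eT_tendsto hN m
  rw [Metric.tendsto_atTop] at h1
  obtain ⟨L, hL⟩ := h1 (ε ^ 2) (by positivity)
  refine ⟨max L m, fun l hl => ?_⟩
  have hlL : L ≤ l := (le_max_left _ _).trans hl
  have hlm : m ≤ l := (le_max_right _ _).trans hl
  have h2 := hL l hlL
  rw [Real.dist_eq, sub_zero] at h2 ⊢
  have p := hh_pos hN l
  have hT := continuous_Tc m
  have hP := continuous_Pz N l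
  have hPa := continuous_Pz N (l + m)
  have hPb := continuous_Pz N (l - m)
  have h3 : eT N m l < ε ^ 2 * hh N l := by
    have := (abs_lt.mp h2).2
    rwa [div_lt_iff₀ p] at this
  -- orthogonality
  have h4 : av N (fun s => Pz N l s ^ 2 * Tc m s)
      = av N (fun s => Pz N l s * (Tc m s * Pz N l s
          - (Pz N (l + m) s + Pz N (l - m) s) / 2)) := by
    have h5 : av N (fun s => Pz N l s ^ 2 * Tc m s)
        = av N (fun s => 1 * (Pz N l s * (Tc m s * Pz N l s
          - (Pz N (l + m) s + Pz N (l - m) s) / 2)) + (1 / 2) * (Pz N l s * Pz N (l + m) s)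
          + (1 / 2) * (Pz N l s * Pz N (l - m) s)) := by
      congr 1
      funext s
      ring
    rw [h5, av_lin3 hN _ _ _ (by fun_prop) (by fun_prop) (by fun_prop),
      av_Pz_orth hN (i := l) (j := l + m) (by omega), av_Pz_orth hN (i := l) (j := l - m) (by omega)]
    ring
  have hval : av N (fun s => (ε / 2) * Pz N l s ^ 2
      + (1 / (2 * ε)) * (Tc m s * Pz N l s - (Pz N (l + m) s + Pz N (l - m) s) / 2) ^ 2)
      = (ε / 2) * hh N l + (1 / (2 * ε)) * eT N m l := by
    rw [av_lin2 hN _ _ (by fun_prop) (by fun_prop)]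
    rfl
  have hval2 : av N (fun s => -((ε / 2) * Pz N l s ^ 2
      + (1 / (2 * ε)) * (Tc m s * Pz N l s - (Pz N (l + m) s + Pz N (l - m) s) / 2) ^ 2))
      = -((ε / 2) * hh N l + (1 / (2 * ε)) * eT N m l) := by
    rw [← hval]
    have := av_mul_left hN (-1) (fun s => (ε / 2) * Pz N l s ^ 2
      + (1 / (2 * ε)) * (Tc m s * Pz N l s - (Pz N (l + m) s + Pz N (l - m) s) / 2) ^ 2)
    simpa using this
  have hpt : ∀ x y : ℝ, |x * y| ≤ (ε / 2) * x ^ 2 + (1 / (2 * ε)) * y ^ 2 := by
    intro x y
    rw [abs_mul]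
    have h6 : 0 ≤ (ε * |x| - |y|) ^ 2 := sq_nonneg _
    have h7 : (ε / 2) * x ^ 2 + (1 / (2 * ε)) * y ^ 2 - |x| * |y|
        = (ε * |x| - |y|) ^ 2 / (2 * ε) := by
      rw [← sq_abs x, ← sq_abs y]
      field_simp
      ring
    have h8 : 0 ≤ (ε * |x| - |y|) ^ 2 / (2 * ε) := by positivity
    linarith
  have hup : av N (fun s => Pz N l s ^ 2 * Tc m s)
      ≤ (ε / 2) * hh N l + (1 / (2 * ε)) * eT N m l := by
    rw [h4, ← hval]
    apply av_mono hN (by fun_prop) (by fun_prop)
    intro s _
    exact (le_abs_self _).trans (hpt _ _)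
  have hlo : -((ε / 2) * hh N l + (1 / (2 * ε)) * eT N m l)
      ≤ av N (fun s => Pz N l s ^ 2 * Tc m s) := by
    rw [h4, ← hval2]
    apply av_mono hN (by fun_prop) (by fun_prop)
    intro s _
    exact neg_le.mp ((neg_le_abs _).trans (hpt _ _))
  have hsmall : (ε / 2) * hh N l + (1 / (2 * ε)) * eT N m l < ε * hh N l := by
    have : (1 / (2 * ε)) * eT N m l < (1 / (2 * ε)) * (ε ^ 2 * hh N l) :=
      mul_lt_mul_of_pos_left h3 (by positivity)
    have e : (1 / (2 * ε)) * (ε ^ 2 * hh N l) = (ε / 2) * hh N l := by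
      field_simp
    rw [e] at this
    linarith
  rw [abs_div, abs_of_pos p, div_lt_iff₀ p]
  exact (abs_le.mpr ⟨hlo, hup⟩).trans_lt hsmall

open Polynomial in
/-- the weak limit of `P_l²/h_l` is the arcsine law: polynomials -/
theorem poly_tendsto (hN : 3 ≤ N) (r : Polynomial ℝ) :
    Tendsto (fun l => av N (fun s => Pz N l s ^ 2 * r.eval s) / hh N l) atTop
      (𝓝 ((∫ x, r.eval x ∂Polynomial.Chebyshev.measureT) / Real.pi)) := by
  -- the set of good polynomials is a submodule
  let S : Submodule ℝ (Polynomial ℝ) :=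
    { carrier := {r | Tendsto (fun l => av N (fun s => Pz N l s ^ 2 * r.eval s) / hh N l) atTop
        (𝓝 ((∫ x, r.eval x ∂Polynomial.Chebyshev.measureT) / Real.pi))}
      add_mem' := by
        intro p q hp hq
        simp only [mem_ofPred_eq] at hp hq ⊢
        have h := hp.add hq
        have e1 : (∫ x, (p + q).eval x ∂Polynomial.Chebyshev.measureT)
            = (∫ x, p.eval x ∂Polynomial.Chebyshev.measureT)
              + ∫ x, q.eval x ∂Polynomial.Chebyshev.measureT := by
          rw [← integral_add (Polynomial.Chebyshev.integrable_measureT (by fun_prop))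
            (Polynomial.Chebyshev.integrable_measureT (by fun_prop))]
          simp
        rw [e1, add_div]
        refine h.congr (fun l => ?_)
        rw [← add_div]
        congr 1
        have hP := continuous_Pz N l
        rw [← av_add hN (by fun_prop) (by fun_prop)]
        congr 1
        funext s
        rw [eval_add]
        ring
      zero_mem' := by
        simp only [mem_ofPred_eq, eval_zero, mul_zero, MeasureTheory.integral_zero, zero_div]
        rw [av_const hN 0]
        simp
      smul_mem' := by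
        intro c p hp
        simp only [mem_ofPred_eq] at hp ⊢
        have h := hp.const_mul c
        have e1 : (∫ x, (c • p).eval x ∂Polynomial.Chebyshev.measureT)
            = c * (∫ x, p.eval x ∂Polynomial.Chebyshev.measureT) := by
          rw [← integral_const_mul]
          simp
        rw [e1, mul_div_assoc]
        refine h.congr (fun l => ?_)
        rw [← mul_div_assoc]
        congr 1
        rw [← av_mul_left hN]
        congr 1
        funext s
        rw [eval_smul, smul_eq_mul]
        ring }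
  have hT : ∀ n : ℤ, Chebyshev.T ℝ n ∈ S := by
    have hTn : ∀ n : ℕ, Chebyshev.T ℝ (n : ℤ) ∈ S := by
      intro n
      change Tendsto _ _ _
      rcases Nat.eq_zero_or_pos n with rfl | hn
      · have h1 := Chebyshev.integral_eval_T_real_measureT_zero
        simp only [Nat.cast_zero]
        rw [h1, div_self Real.pi_ne_zero]
        have h2 : ∀ l, av N (fun s => Pz N l s ^ 2 * (Chebyshev.T ℝ 0).eval s) / hh N l = 1 := by
          intro l
          simp only [Chebyshev.T_zero, eval_one, mul_one]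
          exact div_self (hh_pos hN l).ne'
        simp_rw [h2]
        exact tendsto_const_nhds
      · rw [Chebyshev.integral_eval_T_real_measureT_of_ne_zero (by exact_mod_cast hn.ne'), zero_div]
        exact Tc_tendsto hN hn
    intro n
    rcases le_total 0 n with h | h
    · obtain ⟨k, rfl⟩ := Int.eq_ofNat_of_zero_le h
      exact hTn k
    · obtain ⟨k, hk⟩ := Int.eq_ofNat_of_zero_le (neg_nonneg.mpr h)
      have : n = -(k : ℤ) := by omega
      rw [this, Chebyshev.T_neg]
      exact hTn k
  -- the span of the Chebyshev polynomials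
  let V : Submodule ℝ (Polynomial ℝ) := Submodule.span ℝ (Set.range (fun n : ℤ => Chebyshev.T ℝ n))
  have hVS : V ≤ S := by
    apply Submodule.span_le.mpr
    rintro _ ⟨n, rfl⟩
    exact hT n
  have hX : ∀ p ∈ V, X * p ∈ V := by
    intro p hp
    refine Submodule.span_induction (p := fun p _ => X * p ∈ V) ?_ ?_ ?_ ?_ hp
    · rintro _ ⟨n, rfl⟩
      have h1 : X * Chebyshev.T ℝ n = (1 / 2 : ℝ) • (Chebyshev.T ℝ (n + 1)
          + Chebyshev.T ℝ (n - 1)) := by
        have h2 := Chebyshev.T_add_one ℝ n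
        rw [h2, smul_eq_C_mul]
        have h3 : (C (1 / 2 : ℝ)) * 2 = 1 := by
          rw [show (2 : Polynomial ℝ) = C 2 from (map_ofNat C 2).symm, ← C_mul]
          norm_num
        linear_combination (-X * Chebyshev.T ℝ n) * h3
      rw [h1]
      apply V.smul_mem
      apply V.add_mem
      · exact Submodule.subset_span ⟨n + 1, rfl⟩
      · exact Submodule.subset_span ⟨n - 1, rfl⟩
    · simp
    · intro p q _ _ hp hq
      rw [mul_add]
      exact V.add_mem hp hq
    · intro c p _ hp
      rw [mul_smul_comm]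
      exact V.smul_mem c hp
  have hpow : ∀ n : ℕ, (X : Polynomial ℝ) ^ n ∈ V := by
    intro n
    induction n with
    | zero =>
      rw [pow_zero]
      exact Submodule.subset_span ⟨0, by simp⟩
    | succ n ih =>
      rw [pow_succ']
      exact hX _ ih
  have hall : r ∈ V := by
    rw [Polynomial.as_sum_range_C_mul_X_pow r]
    apply Submodule.sum_mem
    intro i _
    rw [← smul_eq_C_mul]
    exact V.smul_mem _ (hpow i)
  exact hVS hall

/-- lower bound with continuous functions -/
theorem cont_lower (hN : 3 ≤ N) {q : ℝ → ℝ} (hq : Continuous q) {A : ℝ}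
    (hA : A < (∫ x, q x ∂Polynomial.Chebyshev.measureT) / Real.pi) :
    ∀ᶠ l in atTop, A * hh N l ≤ av N (fun s => Pz N l s ^ 2 * q s) := by
  set Λ := (∫ x, q x ∂Polynomial.Chebyshev.measureT) / Real.pi with hΛ
  set ε := (Λ - A) / 3 with hε
  have hεpos : 0 < ε := by rw [hε]; linarith
  obtain ⟨r, hr⟩ := exists_polynomial_near_of_continuousOn (-1) 1 q hq.continuousOn ε hεpos
  have hlim := poly_tendsto hN r
  have hΛr : Λ - ε ≤ (∫ x, r.eval x ∂Polynomial.Chebyshev.measureT) / Real.pi := by
    have h1 : (∫ x, (q x - ε) ∂Polynomial.Chebyshev.measureT)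
        ≤ ∫ x, r.eval x ∂Polynomial.Chebyshev.measureT := by
      apply MeasureTheory.integral_mono_ae
      · exact Polynomial.Chebyshev.integrable_measureT (by fun_prop)
      · exact Polynomial.Chebyshev.integrable_measureT (by fun_prop)
      · have : ∀ᵐ x ∂Polynomial.Chebyshev.measureT, x ∈ Ioc (-1 : ℝ) 1 := by
          unfold Polynomial.Chebyshev.measureT
          exact ae_restrict_mem measurableSet_Ioc
        filter_upwards [this] with x hx
        have := hr x (Ioc_subset_Icc_self hx)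
        rw [abs_lt] at this
        linarith
    have h2 : (∫ x, (q x - ε) ∂Polynomial.Chebyshev.measureT)
        = (∫ x, q x ∂Polynomial.Chebyshev.measureT) - ε * Real.pi := by
      rw [integral_sub (Polynomial.Chebyshev.integrable_measureT (by fun_prop))
        (Polynomial.Chebyshev.integrable_measureT (by fun_prop))]
      congr 1
      rw [Polynomial.Chebyshev.integral_measureT_eq_integral_cos]
      simp [mul_comm]
    rw [h2] at h1
    rw [hΛ, le_div_iff₀ Real.pi_pos, sub_mul, div_mul_cancel₀ _ Real.pi_ne_zero]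
    exact h1
  have h4 : A + ε < (∫ x, r.eval x ∂Polynomial.Chebyshev.measureT) / Real.pi := by
    have : A + ε < Λ - ε := by rw [hε]; linarith
    linarith
  filter_upwards [hlim.eventually (lt_mem_nhds h4)] with l hl
  have p := hh_pos hN l
  rw [lt_div_iff₀ p] at hl
  have hP := continuous_Pz N l
  have h5 : av N (fun s => 1 * (Pz N l s ^ 2 * r.eval s) + (-ε) * (Pz N l s ^ 2))
      ≤ av N (fun s => Pz N l s ^ 2 * q s) := by
    apply av_mono hN (by fun_prop) (by fun_prop)
    intro s hs
    have h6 := hr s hs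
    rw [abs_lt] at h6
    nlinarith [sq_nonneg (Pz N l s)]
  rw [av_lin2 hN _ _ (by fun_prop) (by fun_prop)] at h5
  have h7 : av N (fun s => Pz N l s ^ 2) = hh N l := rfl
  rw [h7] at h5
  linarith

/-- the test functions -/
def qn (n : ℕ) (s : ℝ) : ℝ := 1 / max (1 / ((n : ℝ) + 1)) (Real.sqrt (1 - s ^ 2))

theorem qn_den_pos (n : ℕ) (s : ℝ) :
    0 < max (1 / ((n : ℝ) + 1)) (Real.sqrt (1 - s ^ 2)) :=
  lt_max_of_lt_left (by positivity)

theorem qn_pos (n : ℕ) (s : ℝ) : 0 < qn n s := by
  unfold qn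
  exact one_div_pos.mpr (qn_den_pos n s)

theorem continuous_qn (n : ℕ) : Continuous (qn n) := by
  unfold qn
  apply Continuous.div continuous_const (by fun_prop)
  intro s
  exact (qn_den_pos n s).ne'

theorem qn_upper (hN : 3 ≤ N) (n : ℕ) : av N (fun s => qn n s ^ 2)
    ≤ (∫ x, qn n x ∂Polynomial.Chebyshev.measureT) / massW N := by
  have hc := continuous_qn n
  have hw := wt_continuous hN
  rw [av_eq]
  apply div_le_div_of_nonneg_right _ (massW_pos hN).le
  rw [Polynomial.Chebyshev.integral_measureT]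
  apply intervalIntegral.integral_mono_on_of_le_Ioo (by norm_num)
  · apply Continuous.intervalIntegrable
    fun_prop
  · exact Polynomial.Chebyshev.intervalIntegrable_sqrt_one_sub_sq_inv.continuousOn_mul
      hc.continuousOn
  · intro s hs
    have h1 : 0 < 1 - s ^ 2 := by nlinarith [hs.1, hs.2]
    have h2 : 0 < Real.sqrt (1 - s ^ 2) := Real.sqrt_pos.mpr h1
    have h3 := wt_le_one hN (Ioo_subset_Icc_self hs)
    have h4 := wt_nonneg (N := N) (Ioo_subset_Icc_self hs)
    have h5 := qn_pos n s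
    have h6 : qn n s ≤ Real.sqrt (1 - s ^ 2)⁻¹ := by
      rw [Real.sqrt_inv, ← one_div]
      unfold qn
      exact one_div_le_one_div_of_le h2 (le_max_right _ _)
    calc qn n s ^ 2 * wt N s ≤ qn n s ^ 2 * 1 := mul_le_mul_of_nonneg_left h3 (sq_nonneg _)
      _ = qn n s * qn n s := by ring
      _ ≤ qn n s * Real.sqrt (1 - s ^ 2)⁻¹ := mul_le_mul_of_nonneg_left h6 h5.le

theorem qn_lower (n : ℕ) : Real.log ((n : ℝ) + 1)
    ≤ ∫ x, qn n x ∂Polynomial.Chebyshev.measureT := by
  have hc := continuous_qn n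
  rw [Polynomial.Chebyshev.integral_measureT_eq_integral_cos]
  have hn : (0 : ℝ) ≤ n := Nat.cast_nonneg n
  have ha : (0 : ℝ) < 1 / ((n : ℝ) + 1) := by positivity
  have ha1 : 1 / ((n : ℝ) + 1) ≤ 1 := by
    rw [div_le_one (by linarith)]
    linarith
  have h1 : ∫ θ in (1 / ((n : ℝ) + 1))..1, θ⁻¹
      ≤ ∫ θ in (1 / ((n : ℝ) + 1))..1, qn n (Real.cos θ) := by
    apply intervalIntegral.integral_mono_on ha1
    · apply ContinuousOn.intervalIntegrable
      rw [uIcc_of_le ha1]
      apply ContinuousOn.inv₀ continuousOn_id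
      intro x hx
      exact (ha.trans_le hx.1).ne'
    · apply Continuous.intervalIntegrable
      fun_prop
    · intro θ hθ
      have hθpos : 0 < θ := ha.trans_le hθ.1
      unfold qn
      rw [← one_div]
      apply one_div_le_one_div_of_le (qn_den_pos n _)
      apply max_le hθ.1
      have h2 : 1 - Real.cos θ ^ 2 = Real.sin θ ^ 2 := by
        have := Real.sin_sq_add_cos_sq θ
        linarith
      rw [h2, Real.sqrt_sq_eq_abs, abs_of_nonneg]
      · exact Real.sin_le hθpos.le
      · apply Real.sin_nonneg_of_nonneg_of_le_pi hθpos.le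
        linarith [hθ.2, Real.pi_gt_three]
  rw [integral_inv_of_pos ha one_pos] at h1
  have h2 : (1 : ℝ) / (1 / ((n : ℝ) + 1)) = (n : ℝ) + 1 := by
    field_simp
  rw [h2] at h1
  refine h1.trans ?_
  apply intervalIntegral.integral_mono_interval ha.le ha1 (by linarith [Real.pi_gt_three])
  · exact Eventually.of_forall (fun θ => (qn_pos n _).le)
  · apply Continuous.intervalIntegrable
    fun_prop

/-- fourth moments dominate squares of second moments -/
theorem moment_ratio (hN : 3 ≤ N) (M : ℝ) : ∀ᶠ l in atTop,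
    M * av N (fun s => Pz N l s ^ 2) ^ 2 ≤ av N (fun s => Pz N l s ^ 4) := by
  have hW := massW_pos hN
  have hπ := Real.pi_pos
  -- choose n
  obtain ⟨n, hn⟩ : ∃ n : ℕ, (16 * Real.pi ^ 2 * |M| / massW N + 1) ≤ Real.log ((n : ℝ) + 1) := by
    have ht : Tendsto (fun n : ℕ => Real.log ((n : ℝ) + 1)) atTop atTop :=
      Real.tendsto_log_atTop.comp (tendsto_atTop_add_const_right _ _ tendsto_natCast_atTop_atTop)
    exact (ht.eventually_ge_atTop _).exists
  set I := ∫ x, qn n x ∂Polynomial.Chebyshev.measureT with hI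
  have hI1 : 16 * Real.pi ^ 2 * |M| / massW N + 1 ≤ I := hn.trans (qn_lower n)
  have hIpos : 0 < I := by
    have : 0 ≤ 16 * Real.pi ^ 2 * |M| / massW N := by positivity
    linarith
  have hlow := cont_lower hN (continuous_qn n) (A := I / (2 * Real.pi)) (by
    rw [← hI, div_lt_div_iff₀ (by positivity) hπ]
    nlinarith)
  filter_upwards [hlow] with l hl
  have p := hh_pos hN l
  have hP := continuous_Pz N l
  have hq := continuous_qn n
  have hup := qn_upper hN n
  rw [← hI] at hup
  have hdef : av N (fun s => Pz N l s ^ 2) = hh N l := rfl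
  rw [hdef]
  -- (P² - t q)² ≥ 0
  set t := hh N l * (massW N / (2 * Real.pi)) with ht
  have htpos : 0 < t := by positivity
  have h1 : av N (fun s => (2 * t) * (Pz N l s ^ 2 * qn n s) + (-t ^ 2) * (qn n s ^ 2))
      ≤ av N (fun s => Pz N l s ^ 4) := by
    apply av_mono hN (by fun_prop) (by fun_prop)
    intro s _
    nlinarith [sq_nonneg (Pz N l s ^ 2 - t * qn n s)]
  rw [av_lin2 hN _ _ (by fun_prop) (by fun_prop)] at h1
  have h2 : (2 * t) * (I / (2 * Real.pi) * hh N l)
      ≤ (2 * t) * av N (fun s => Pz N l s ^ 2 * qn n s) :=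
    mul_le_mul_of_nonneg_left hl (by positivity)
  have h3 : t ^ 2 * av N (fun s => qn n s ^ 2) ≤ t ^ 2 * (I / massW N) :=
    mul_le_mul_of_nonneg_left hup (by positivity)
  have h4 : (2 * t) * (I / (2 * Real.pi) * hh N l) - t ^ 2 * (I / massW N)
      = hh N l ^ 2 * (I * massW N / (4 * Real.pi ^ 2)) := by
    rw [ht]
    field_simp
    ring
  have h5 : M ≤ I * massW N / (4 * Real.pi ^ 2) := by
    rw [le_div_iff₀ (by positivity)]
    have h6 : 16 * Real.pi ^ 2 * |M| / massW N ≤ I := by linarith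
    rw [div_le_iff₀ hW] at h6
    have h7 : M ≤ |M| := le_abs_self M
    have h8 : 0 ≤ |M| := abs_nonneg M
    nlinarith [sq_nonneg Real.pi, mul_le_mul_of_nonneg_right h7 (sq_nonneg Real.pi),
      mul_nonneg h8 (sq_nonneg Real.pi)]
  have h6 : M * hh N l ^ 2 ≤ hh N l ^ 2 * (I * massW N / (4 * Real.pi ^ 2)) := by
    rw [mul_comm]
    exact mul_le_mul_of_nonneg_left h5 (sq_nonneg _)
  linarith

end Pool.Agent.helper13.BN
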