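import Pool.Agent.helper13.BN.Defs2

set_option autoImplicit false

noncomputable section
namespace Pool.Agent.helper13.BN

/-- `A(r) = ∫_r^1 s^{1-N} ds` -/
def AA (N : ℕ) (r : ℝ) : ℝ := (r ^ (2 - (N : ℝ)) - 1) / (N - 2)

end Pool.Agent.helper13.BN
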