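import Pool.Agent.helper52.BN.Ode
import Pool.Agent.helper73.BN.Zonal
import Pool.Agent.helper73.BN.AADef

set_option autoImplicit false

/-!
# The eigenfunctions on the axis
-/

open MeasureTheory Filter Topology Set Metric
open scoped ContDiff Gradient RealInnerProductSpace ENNReal

noncomputable section
namespace Pool.Agent.helper13.BN
variable {N : ℕ}

/-- one integration of a power bound -/
theorem axy_taylor_step {f f' : ℝ → ℝ} {K : ℝ} {k : ℕ} (hK : 0 ≤ K)
    (hd : ∀ t ∈ Icc (0 : ℝ) 1, HasDerivAt f (f' t) t) (h0 : f 0 = 0)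
    (hb : ∀ t ∈ Icc (0 : ℝ) 1, |f' t| ≤ K * t ^ k) :
    ∀ t ∈ Icc (0 : ℝ) 1, |f t| ≤ K * t ^ (k + 1) := by
  intro t ht
  have h := Convex.norm_image_sub_le_of_norm_hasDerivWithin_le (f := f) (f' := f')
    (s := Icc 0 t) (C := K * t ^ k) (x := 0) (y := t)
    (fun s hs => (hd s ⟨hs.1, hs.2.trans ht.2⟩).hasDerivWithinAt)
    (fun s hs => by
      rw [Real.norm_eq_abs]
      refine (hb s ⟨hs.1, hs.2.trans ht.2⟩).trans ?_
      exact mul_le_mul_of_nonneg_left (pow_le_pow_left₀ hs.1 hs.2 k) hK)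
    (convex_Icc 0 t) ⟨le_rfl, ht.1⟩ ⟨ht.1, le_rfl⟩
  rw [h0, sub_zero, sub_zero, Real.norm_eq_abs, Real.norm_eq_abs, abs_of_nonneg ht.1] at h
  rw [pow_succ, ← mul_assoc]
  exact h

/-- uniform Taylor expansion of the solutions with `Y(0) = 0`, `Y'(0) = 1` -/
theorem axy_ode_taylor (M : ℝ) : ∃ C : ℝ, 0 < C ∧ ∀ (q Y : ℝ → ℝ), Continuous q →
    (∀ t ∈ Icc (0 : ℝ) 1, |q t| ≤ M) → IsSol1 q Y →
    ∀ t ∈ Icc (0 : ℝ) 1, |Y t| ≤ C * t ∧ |Y t - t| ≤ C * t ^ 3 := by
  obtain ⟨C, hC, hbd⟩ := exists_ode_bound M 1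
  refine ⟨C + |M| * C, by positivity, ?_⟩
  intro q Y hq hM hY
  obtain ⟨hY0, hY1, hYd, hYdd⟩ := hY
  have hb := hbd q (fun _ => 0) Y 0 1 0 hq continuous_const hM (fun t _ => by simp) hY0 hY1 hYd
    (fun t => by simpa using hYdd t)
  simp only [abs_zero, abs_one, zero_add, add_zero, mul_one] at hb
  have h1 : ∀ t ∈ Icc (0 : ℝ) 1, |Y t| ≤ C * t ^ (0 + 1) :=
    axy_taylor_step hC.le (fun t _ => (hYd t).hasDerivAt) hY0 (fun t ht => by
      simpa using (hb t ht).2)
  have hMC : 0 ≤ |M| * C := by positivity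
  have h2 : ∀ t ∈ Icc (0 : ℝ) 1, |deriv Y t - 1| ≤ (|M| * C) * t ^ (1 + 1) := by
    refine axy_taylor_step (f := fun t => deriv Y t - 1) (f' := fun t => q t * Y t) hMC
      (fun t _ => (hYdd t).sub_const 1) (by simp [hY1]) (fun t ht => ?_)
    rw [abs_mul, mul_assoc]
    have := h1 t ht
    rw [zero_add] at this
    exact mul_le_mul ((hM t ht).trans (le_abs_self M)) this (abs_nonneg _) (abs_nonneg _)
  have h3 : ∀ t ∈ Icc (0 : ℝ) 1, |Y t - t| ≤ (|M| * C) * t ^ (1 + 1 + 1) := by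
    refine axy_taylor_step (f := fun t => Y t - t) (f' := fun t => deriv Y t - 1) hMC
      (fun t _ => (hYd t).hasDerivAt.sub (hasDerivAt_id t)) (by simp [hY0]) h2
  intro t ht
  have ht0 := ht.1
  constructor
  · have := h1 t ht
    rw [zero_add, pow_one] at this
    nlinarith [mul_nonneg hMC ht0]
  · have := h3 t ht
    have h4 : 0 ≤ C * t ^ 3 := by positivity
    have h5 : (1 + 1 + 1 : ℕ) = 3 := rfl
    rw [h5] at this
    linarith

theorem axy_cyl_axis {e : E N} (he : ‖e‖ = 1) (hN : 3 ≤ N) (j : ℕ) (y : ℝ → ℝ) {d : ℝ}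
    (hd : d < 1) :
    cyl N e y (Pz N j) ((1 - d) • e)
      = Real.exp (cc N * (-Real.log (1 - d))) * y (-Real.log (1 - d)) := by
  have h1 : 0 < 1 - d := by linarith
  have hn : ‖(1 - d) • e‖ = 1 - d := by
    rw [norm_smul, he, mul_one, Real.norm_eq_abs, abs_of_pos h1]
  have hi : ⟪(1 - d) • e, e⟫ / ‖(1 - d) • e‖ = 1 := by
    rw [hn, real_inner_smul_left, real_inner_self_eq_norm_sq, he]
    field_simp
  unfold cyl
  rw [hi, hn, Pz_at_one N j hN, mul_one, Real.rpow_def_of_pos h1]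
  congr 2
  ring

theorem axis_eig (hN : 3 ≤ N) (D : Cr N) {e : E N} (he : ‖e‖ = 1) : ∃ C d₁ : ℝ, 0 < C ∧ 0 < d₁ ∧
    ∀ᶠ i in atTop, ∀ d ∈ Ioo 0 d₁,
      |D.f1 e i ((1 - d) • e) - AA N (1 - d)| ≤ C * d ^ 3 ∧
      |D.f1 e i ((1 - d) • e) - D.f2 e i ((1 - d) • e)
        + ((D.l : ℝ) * (D.l + N - 2) - (D.lam2 i - D.lam1 i)) / 6 * d ^ 3| ≤ C * d ^ 4 ∧
      |AA N (1 - d) - d| ≤ C * d ^ 2 := by
  have h3 : (3 : ℝ) ≤ N := by exact_mod_cast hN
  set c := cc N with hc
  have hc2 : 2 * c = N - 2 := by rw [hc]; unfold cc; ring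
  have hcpos : 0 < c := by linarith
  have hcN : c ≤ N / 2 := by linarith
  set l : ℝ := (D.l : ℝ) with hl
  have hl0 : 0 ≤ l := Nat.cast_nonneg _
  set B : ℝ := |D.lam| + 1 with hB
  have hB0 : 0 < B := by positivity
  set m : ℝ := l * (l + N - 2) with hm
  have hm0 : 0 ≤ m := by
    rw [hm]
    apply mul_nonneg hl0
    linarith
  obtain ⟨C, hC, hT⟩ := axy_ode_taylor ((l + c) ^ 2 + B)
  -- the constant of the fourth order estimate
  set K : ℝ := ((l + c) ^ 2 + B) * (2 * C) + (m + 2 * B) * C + 4 * B * C with hK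
  have hK0 : 0 ≤ K := by positivity
  set C' : ℝ := 32 * C + (32 * K + (m + 2 * B) * (32 * c + 14)) + (8 * c + 2) with hC'
  have hC'a : 0 ≤ (m + 2 * B) * (32 * c + 14) := by positivity
  have hC'1 : 32 * C ≤ C' := by
    rw [hC']; linarith
  have hC'2 : 32 * K + (m + 2 * B) * (32 * c + 14) ≤ C' := by
    rw [hC']; linarith
  have hC'3 : 8 * c + 2 ≤ C' := by
    rw [hC']; linarith
  have hC'0 : 0 < C' := by linarith
  refine ⟨C', 1 / (4 * N), hC'0, by positivity, ?_⟩
  have e1 : ∀ᶠ i in atTop, |D.lam1 i| ≤ B := by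
    have h := (continuous_abs.tendsto D.lam).comp D.t1
    have h2 : |D.lam| < B := by rw [hB]; linarith
    filter_upwards [h.eventually (gt_mem_nhds h2)] with i hi using hi.le
  have e2 : ∀ᶠ i in atTop, |D.lam2 i| ≤ B := by
    have h := (continuous_abs.tendsto D.lam).comp D.t2
    have h2 : |D.lam| < B := by rw [hB]; linarith
    filter_upwards [h.eventually (gt_mem_nhds h2)] with i hi using hi.le
  filter_upwards [e1, e2] with i hi1 hi2
  set lam1 := D.lam1 i with hlam1
  set lam2 := D.lam2 i with hlam2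
  set y0 := yf c lam1 with hy0
  set yl := yf (l + c) lam2 with hyl
  set g := lam2 - lam1 with hg
  have hgB : |g| ≤ 2 * B := by
    rw [hg]
    exact (abs_sub _ _).trans (by linarith)
  -- bounds for the coefficients
  have hexp : ∀ t ∈ Icc (0 : ℝ) 1, 0 ≤ Real.exp (-2 * t) ∧ Real.exp (-2 * t) ≤ 1 ∧
      1 - 2 * t ≤ Real.exp (-2 * t) := by
    intro t ht
    refine ⟨(Real.exp_pos _).le, Real.exp_le_one_iff.mpr (by linarith [ht.1]), ?_⟩
    have := Real.add_one_le_exp (-2 * t)
    linarith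
  have hcl : c ^ 2 ≤ (l + c) ^ 2 := pow_le_pow_left₀ hcpos.le (by linarith) 2
  have hq0 : ∀ t ∈ Icc (0 : ℝ) 1, |qf c lam1 t| ≤ (l + c) ^ 2 + B := by
    intro t ht
    obtain ⟨a1, a2, _⟩ := hexp t ht
    unfold qf
    calc |c ^ 2 - lam1 * Real.exp (-2 * t)| ≤ |c ^ 2| + |lam1 * Real.exp (-2 * t)| := abs_sub _ _
      _ ≤ (l + c) ^ 2 + B := by
        rw [abs_mul, abs_of_nonneg (sq_nonneg c), abs_of_nonneg a1]
        have : |lam1| * Real.exp (-2 * t) ≤ B * 1 := mul_le_mul hi1 a2 a1 hB0.le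
        linarith
  have hql : ∀ t ∈ Icc (0 : ℝ) 1, |qf (l + c) lam2 t| ≤ (l + c) ^ 2 + B := by
    intro t ht
    obtain ⟨a1, a2, _⟩ := hexp t ht
    unfold qf
    calc |(l + c) ^ 2 - lam2 * Real.exp (-2 * t)|
        ≤ |(l + c) ^ 2| + |lam2 * Real.exp (-2 * t)| := abs_sub _ _
      _ ≤ (l + c) ^ 2 + B := by
        rw [abs_mul, abs_of_nonneg (sq_nonneg (l + c)), abs_of_nonneg a1]
        have : |lam2| * Real.exp (-2 * t) ≤ B * 1 := mul_le_mul hi2 a2 a1 hB0.le
        linarith
  have hs0 := yf_spec c lam1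
  have hsl := yf_spec (l + c) lam2
  have T0 := hT (qf c lam1) y0 (qf_cont _ _) hq0 hs0
  have Tl := hT (qf (l + c) lam2) yl (qf_cont _ _) hql hsl
  -- the function S
  set S : ℝ → ℝ := fun t => (Real.exp (c * t) - Real.exp (-(c * t))) / (2 * c) with hS
  have hSd : ∀ t, HasDerivAt S ((Real.exp (c * t) + Real.exp (-(c * t))) / 2) t := by
    intro t
    have h1 : HasDerivAt (fun t => Real.exp (c * t)) (Real.exp (c * t) * c) t := by
      have := ((hasDerivAt_id t).const_mul c).exp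
      simpa using this
    have h2 : HasDerivAt (fun t => Real.exp (-(c * t))) (Real.exp (-(c * t)) * (-c)) t := by
      have := (((hasDerivAt_id t).const_mul c).neg).exp
      simpa using this
    refine ((h1.sub h2).div_const (2 * c)).congr_deriv ?_
    field_simp
    ring
  have hSd' : deriv S = fun t => (Real.exp (c * t) + Real.exp (-(c * t))) / 2 := by
    funext t; exact (hSd t).deriv
  have hSsol : IsSol1 (fun _ => c ^ 2) S := by
    refine ⟨by simp [hS], by simp [hSd'], fun t => (hSd t).differentiableAt, fun t => ?_⟩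
    rw [hSd']
    have h1 : HasDerivAt (fun t => Real.exp (c * t)) (Real.exp (c * t) * c) t := by
      have := ((hasDerivAt_id t).const_mul c).exp
      simpa using this
    have h2 : HasDerivAt (fun t => Real.exp (-(c * t))) (Real.exp (-(c * t)) * (-c)) t := by
      have := (((hasDerivAt_id t).const_mul c).neg).exp
      simpa using this
    refine ((h1.add h2).div_const 2).congr_deriv ?_
    rw [hS]
    field_simp
    ring
  have TS := hT (fun _ => c ^ 2) S continuous_const (fun t _ => by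
    rw [abs_of_nonneg (sq_nonneg c)]; linarith) hSsol
  -- fourth order estimate
  have hmν : m = (l + c) ^ 2 - c ^ 2 := by rw [hm]; linear_combination (-l) * hc2
  have TZ : ∀ t ∈ Icc (0 : ℝ) 1, |y0 t - yl t + (m - g) * t ^ 3 / 6| ≤ K * t ^ 4 := by
    obtain ⟨a0, a1, ad, add'⟩ := hs0
    obtain ⟨b0, b1, bd, bdd⟩ := hsl
    have hZ2 : ∀ t ∈ Icc (0 : ℝ) 1,
        |qf c lam1 t * y0 t - qf (l + c) lam2 t * yl t + (m - g) * t| ≤ K * t ^ 2 := by
      intro t ht
      obtain ⟨x1, x2, x3⟩ := hexp t ht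
      have ht0 := ht.1
      have ht1 := ht.2
      have hid : qf c lam1 t * y0 t - qf (l + c) lam2 t * yl t + (m - g) * t
          = qf c lam1 t * ((y0 t - t) - (yl t - t)) + (-(m - g)) * (yl t - t)
            + g * (Real.exp (-2 * t) - 1) * yl t := by
        rw [hmν, hg]
        unfold qf
        ring
      rw [hid]
      have u1 : |qf c lam1 t * ((y0 t - t) - (yl t - t))|
          ≤ ((l + c) ^ 2 + B) * (2 * C) * t ^ 2 := by
        rw [abs_mul]
        have v1 : |(y0 t - t) - (yl t - t)| ≤ 2 * C * t ^ 2 := by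
          refine (abs_sub _ _).trans ?_
          have w1 := (T0 t ht).2
          have w2 := (Tl t ht).2
          have w3 : t ^ 3 ≤ t ^ 2 := pow_le_pow_of_le_one ht0 ht1 (by norm_num)
          have w4 := mul_le_mul_of_nonneg_left w3 hC.le
          linarith
        calc |qf c lam1 t| * |(y0 t - t) - (yl t - t)|
            ≤ ((l + c) ^ 2 + B) * (2 * C * t ^ 2) :=
              mul_le_mul (hq0 t ht) v1 (abs_nonneg _) (by positivity)
          _ = _ := by ring
      have u2 : |(-(m - g)) * (yl t - t)| ≤ (m + 2 * B) * C * t ^ 2 := by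
        rw [abs_mul, abs_neg]
        have v1 : |m - g| ≤ m + 2 * B := by
          refine (abs_sub _ _).trans ?_
          rw [abs_of_nonneg hm0]
          linarith
        have v2 : |yl t - t| ≤ C * t ^ 2 := by
          have w2 := (Tl t ht).2
          have w3 : t ^ 3 ≤ t ^ 2 := pow_le_pow_of_le_one ht0 ht1 (by norm_num)
          have w4 := mul_le_mul_of_nonneg_left w3 hC.le
          linarith
        calc |m - g| * |yl t - t| ≤ (m + 2 * B) * (C * t ^ 2) :=
              mul_le_mul v1 v2 (abs_nonneg _) (by positivity)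
          _ = _ := by ring
      have u3 : |g * (Real.exp (-2 * t) - 1) * yl t| ≤ 4 * B * C * t ^ 2 := by
        rw [abs_mul, abs_mul]
        have v1 : |Real.exp (-2 * t) - 1| ≤ 2 * t := by
          rw [abs_le]; constructor <;> linarith
        calc |g| * |Real.exp (-2 * t) - 1| * |yl t| ≤ (2 * B) * (2 * t) * (C * t) := by
              apply mul_le_mul _ (Tl t ht).1 (abs_nonneg _) (by positivity)
              exact mul_le_mul hgB v1 (abs_nonneg _) (by positivity)
          _ = _ := by ring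
      calc _ ≤ |qf c lam1 t * ((y0 t - t) - (yl t - t))| + |(-(m - g)) * (yl t - t)|
            + |g * (Real.exp (-2 * t) - 1) * yl t| := abs_add_three _ _ _
        _ ≤ _ := by
          have e : K * t ^ 2 = ((l + c) ^ 2 + B) * (2 * C) * t ^ 2 + (m + 2 * B) * C * t ^ 2
            + 4 * B * C * t ^ 2 := by rw [hK]; ring
          rw [e]
          exact add_le_add (add_le_add u1 u2) u3
    have hZ1 : ∀ t ∈ Icc (0 : ℝ) 1,
        |deriv y0 t - deriv yl t + (m - g) * t ^ 2 / 2| ≤ K * t ^ (2 + 1) := by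
      refine axy_taylor_step (f := fun t => deriv y0 t - deriv yl t + (m - g) * t ^ 2 / 2)
        (f' := fun t => qf c lam1 t * y0 t - qf (l + c) lam2 t * yl t + (m - g) * t) hK0
        (fun t _ => ?_) ?_ hZ2
      · refine (((add' t).sub (bdd t)).add
          (((hasDerivAt_pow 2 t).const_mul (m - g)).div_const 2)).congr_deriv ?_
        push_cast
        ring
      · simp [a1, b1, hy0, hyl]
    have hZ0 := axy_taylor_step (f := fun t => y0 t - yl t + (m - g) * t ^ 3 / 6)
        (f' := fun t => deriv y0 t - deriv yl t + (m - g) * t ^ 2 / 2) hK0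
        (fun t _ => by
          refine ((((ad t).hasDerivAt).sub (bd t).hasDerivAt).add
            (((hasDerivAt_pow 3 t).const_mul (m - g)).div_const 6)).congr_deriv ?_
          push_cast
          ring) (by simp [a0, b0, hy0, hyl]) hZ1
    exact hZ0
  intro d hd
  have hd0 : 0 < d := hd.1
  have hdN : d * (4 * N) < 1 := by
    have := hd.2
    rwa [lt_div_iff₀ (by positivity)] at this
  have hdN3 : d * (4 * 3) ≤ d * (4 * N) := mul_le_mul_of_nonneg_left (by linarith) hd0.le
  have hd12 : d < 1 / 12 := by linarith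
  -- t = -log(1-d)
  set t := -Real.log (1 - d) with ht
  have htd : |t - d| ≤ 2 * d ^ 2 := by
    have h := Real.abs_log_sub_add_sum_range_le (x := d) (by rw [abs_of_pos hd0]; linarith) 1
    simp only [Finset.range_one, Finset.sum_singleton, zero_add, pow_one, Nat.cast_zero,
      div_one] at h
    rw [abs_of_pos hd0] at h
    have h1 : d ^ (1 + 1) / (1 - d) ≤ 2 * d ^ 2 := by
      rw [div_le_iff₀ (by linarith)]
      have e : 2 * d ^ 2 * (1 - d) - d ^ (1 + 1) = d ^ 2 * (1 - 2 * d) := by ring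
      have e2 : 0 ≤ d ^ 2 * (1 - 2 * d) := mul_nonneg (sq_nonneg d) (by linarith)
      linarith
    have h2 : t - d = -(d + Real.log (1 - d)) := by rw [ht]; ring
    rw [h2, abs_neg]
    exact h.trans h1
  have htd' := abs_le.mp htd
  have hdsq : d ^ 2 ≤ d * (1 / 12) := by
    rw [sq]; exact mul_le_mul_of_nonneg_left hd12.le hd0.le
  have ht2 : t ≤ 2 * d := by linarith
  have ht0 : 0 ≤ t := by
    rw [ht]
    have := Real.log_nonpos (x := 1 - d) (by linarith) (by linarith)
    linarith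
  have htI : t ∈ Icc (0 : ℝ) 1 := ⟨ht0, by linarith⟩
  have hct : c * t ≤ 1 / 4 := by
    have w1 : c * t ≤ (N / 2) * (2 * d) := mul_le_mul hcN ht2 ht0 (by positivity)
    have w2 : (N / 2) * (2 * d) = d * (4 * N) / 4 := by ring
    linarith
  have hct0 : 0 ≤ c * t := by positivity
  have hE1 : |Real.exp (c * t) - 1| ≤ 2 * (c * t) := by
    have := Real.abs_exp_sub_one_le (x := c * t) (by rw [abs_of_nonneg hct0]; linarith)
    rwa [abs_of_nonneg hct0] at this
  have hE1' := abs_le.mp hE1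
  have hE2 : Real.exp (c * t) ≤ 2 := by linarith
  have hEpos := Real.exp_pos (c * t)
  -- values
  have hf1 : D.f1 e i ((1 - d) • e) = Real.exp (c * t) * y0 t := by
    unfold Cr.f1
    rw [axy_cyl_axis he hN 0 _ (by linarith)]
  have hf2 : D.f2 e i ((1 - d) • e) = Real.exp (c * t) * yl t := by
    unfold Cr.f2
    rw [axy_cyl_axis he hN D.l _ (by linarith)]
  have hAA : AA N (1 - d) = (Real.exp (2 * (c * t)) - 1) / (2 * c) := by
    unfold AA
    rw [hc2, Real.rpow_def_of_pos (by linarith)]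
    congr 3
    rw [ht]
    linear_combination (Real.log (1 - d)) * hc2
  have hAA2 : AA N (1 - d) = Real.exp (c * t) * S t := by
    rw [hAA, hS]
    have : Real.exp (2 * (c * t)) = Real.exp (c * t) * Real.exp (c * t) := by
      rw [← Real.exp_add]; congr 1; ring
    have h2 : Real.exp (c * t) * Real.exp (-(c * t)) = 1 := by
      rw [← Real.exp_add]; simp
    rw [this]
    field_simp
    linear_combination h2
  have ht3 : t ^ 3 ≤ 8 * d ^ 3 := by
    have := pow_le_pow_left₀ ht0 ht2 3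
    calc t ^ 3 ≤ (2 * d) ^ 3 := this
      _ = 8 * d ^ 3 := by ring
  have ht4 : t ^ 4 ≤ 16 * d ^ 4 := by
    have := pow_le_pow_left₀ ht0 ht2 4
    calc t ^ 4 ≤ (2 * d) ^ 4 := this
      _ = 16 * d ^ 4 := by ring
  have ht2' : t ^ 2 ≤ 4 * d ^ 2 := by
    have := pow_le_pow_left₀ ht0 ht2 2
    calc t ^ 2 ≤ (2 * d) ^ 2 := this
      _ = 4 * d ^ 2 := by ring
  have hd2 : 0 < d ^ 2 := by positivity
  have hd3 : 0 < d ^ 3 := by positivity
  have hd4 : 0 < d ^ 4 := by positivity
  refine ⟨?_, ?_, ?_⟩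
  · rw [hf1, hAA2, ← mul_sub, abs_mul, abs_of_pos hEpos]
    have h1 : |y0 t - S t| ≤ 2 * C * t ^ 3 := by
      have w1 := (T0 t htI).2
      have w2 := (TS t htI).2
      have : y0 t - S t = (y0 t - t) - (S t - t) := by ring
      rw [this]
      refine (abs_sub _ _).trans ?_
      linarith
    calc Real.exp (c * t) * |y0 t - S t| ≤ 2 * (2 * C * t ^ 3) :=
          mul_le_mul hE2 h1 (abs_nonneg _) (by norm_num)
      _ ≤ 2 * (2 * C * (8 * d ^ 3)) := by
          apply mul_le_mul_of_nonneg_left _ (by norm_num)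
          exact mul_le_mul_of_nonneg_left ht3 (by positivity)
      _ = 32 * C * d ^ 3 := by ring
      _ ≤ C' * d ^ 3 := mul_le_mul_of_nonneg_right hC'1 hd3.le
  · rw [hf1, hf2]
    have hid : Real.exp (c * t) * y0 t - Real.exp (c * t) * yl t + (m - g) / 6 * d ^ 3
        = Real.exp (c * t) * (y0 t - yl t + (m - g) * t ^ 3 / 6)
          - (m - g) / 6 * ((Real.exp (c * t) - 1) * t ^ 3 + (t - d) * (t ^ 2 + t * d + d ^ 2)) := by
      ring
    rw [hid]
    have v1 : |m - g| ≤ m + 2 * B := by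
      refine (abs_sub _ _).trans ?_
      rw [abs_of_nonneg hm0]
      linarith
    have p1 : |Real.exp (c * t) * (y0 t - yl t + (m - g) * t ^ 3 / 6)| ≤ 32 * K * d ^ 4 := by
      rw [abs_mul, abs_of_pos hEpos]
      calc Real.exp (c * t) * |y0 t - yl t + (m - g) * t ^ 3 / 6| ≤ 2 * (K * t ^ 4) :=
            mul_le_mul hE2 (TZ t htI) (abs_nonneg _) (by norm_num)
        _ ≤ 2 * (K * (16 * d ^ 4)) := by
            apply mul_le_mul_of_nonneg_left _ (by norm_num)
            exact mul_le_mul_of_nonneg_left ht4 hK0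
        _ = _ := by ring
    have p2 : |(Real.exp (c * t) - 1) * t ^ 3| ≤ 32 * c * d ^ 4 := by
      rw [abs_mul, abs_of_nonneg (pow_nonneg ht0 3)]
      calc |Real.exp (c * t) - 1| * t ^ 3 ≤ 2 * (c * t) * t ^ 3 :=
            mul_le_mul_of_nonneg_right hE1 (pow_nonneg ht0 3)
        _ = 2 * c * t ^ 4 := by ring
        _ ≤ 2 * c * (16 * d ^ 4) := mul_le_mul_of_nonneg_left ht4 (by positivity)
        _ = _ := by ring
    have p3 : |(t - d) * (t ^ 2 + t * d + d ^ 2)| ≤ 14 * d ^ 4 := by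
      rw [abs_mul, abs_of_nonneg (by positivity : 0 ≤ t ^ 2 + t * d + d ^ 2)]
      have : t ^ 2 + t * d + d ^ 2 ≤ 7 * d ^ 2 := by
        have w1 : t * d ≤ 2 * d * d := mul_le_mul_of_nonneg_right ht2 hd0.le
        have w2 : 2 * d * d = 2 * d ^ 2 := by ring
        linarith
      calc |t - d| * (t ^ 2 + t * d + d ^ 2) ≤ (2 * d ^ 2) * (7 * d ^ 2) :=
            mul_le_mul htd this (by positivity) (by positivity)
        _ = _ := by ring
    have p4 : |(m - g) / 6 * ((Real.exp (c * t) - 1) * t ^ 3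
        + (t - d) * (t ^ 2 + t * d + d ^ 2))| ≤ (m + 2 * B) * (32 * c + 14) * d ^ 4 := by
      rw [abs_mul, abs_div, abs_of_pos (by norm_num : (0 : ℝ) < 6)]
      have q1 : |m - g| / 6 ≤ m + 2 * B := by
        rw [div_le_iff₀ (by norm_num)]
        have : 0 ≤ m + 2 * B := by positivity
        linarith
      have q2 : |(Real.exp (c * t) - 1) * t ^ 3 + (t - d) * (t ^ 2 + t * d + d ^ 2)|
          ≤ (32 * c + 14) * d ^ 4 := by
        refine (abs_add_le _ _).trans ?_
        linarith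
      calc _ ≤ (m + 2 * B) * ((32 * c + 14) * d ^ 4) :=
            mul_le_mul q1 q2 (abs_nonneg _) (by positivity)
        _ = _ := by ring
    refine (abs_sub _ _).trans ?_
    calc _ ≤ 32 * K * d ^ 4 + (m + 2 * B) * (32 * c + 14) * d ^ 4 := add_le_add p1 p4
      _ = (32 * K + (m + 2 * B) * (32 * c + 14)) * d ^ 4 := by ring
      _ ≤ C' * d ^ 4 := mul_le_mul_of_nonneg_right hC'2 hd4.le
  · rw [hAA]
    have h1 : |Real.exp (2 * (c * t)) - 1 - 2 * (c * t)| ≤ (2 * (c * t)) ^ 2 := by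
      apply Real.abs_exp_sub_one_sub_id_le
      rw [abs_of_nonneg (by positivity)]
      linarith
    have h2 : (Real.exp (2 * (c * t)) - 1) / (2 * c) - d
        = (Real.exp (2 * (c * t)) - 1 - 2 * (c * t)) / (2 * c) + (t - d) := by
      field_simp
      ring
    rw [h2]
    have h3' : |(Real.exp (2 * (c * t)) - 1 - 2 * (c * t)) / (2 * c)| ≤ 2 * c * t ^ 2 := by
      rw [abs_div, abs_of_pos (by positivity : (0 : ℝ) < 2 * c), div_le_iff₀ (by positivity)]
      calc _ ≤ (2 * (c * t)) ^ 2 := h1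
        _ = _ := by ring
    calc _ ≤ |(Real.exp (2 * (c * t)) - 1 - 2 * (c * t)) / (2 * c)| + |t - d| := abs_add_le _ _
      _ ≤ 2 * c * t ^ 2 + 2 * d ^ 2 := add_le_add h3' htd
      _ ≤ 2 * c * (4 * d ^ 2) + 2 * d ^ 2 := by
          have := mul_le_mul_of_nonneg_left ht2' (by positivity : 0 ≤ 2 * c)
          linarith
      _ = (8 * c + 2) * d ^ 2 := by ring
      _ ≤ C' * d ^ 2 := mul_le_mul_of_nonneg_right hC'3 hd2.le

end Pool.Agent.helper13.BN
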