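import Pool.Agent.helper13.BN.Defs2
import Pool.Agent.helper15.BN.Cross
import Pool.Agent.helper78.BN.Sturm
import Pool.Agent.helper17.BN.C12


set_option autoImplicit false

/-!
# Existence of crossing data
-/

open MeasureTheory Filter Topology Set Metric
open scoped ContDiff Gradient RealInnerProductSpace ENNReal

noncomputable section
namespace Pool.Agent.helper13.BN
variable {N : ℕ}
theorem exists_Cr (hN : 3 ≤ N) (hN5 : N ≤ 5) : Nonempty (Cr N) := by
  obtain ⟨δ, hδ, hAB⟩ := cond_AB hN hN5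
  have hcr := crossing hN hδ
  obtain ⟨l₀, hl₀⟩ := eventually_atTop.mp (hcr.and hAB)
  -- an odd `l ≥ max l₀ 1`
  obtain ⟨l, hll, hlo⟩ : ∃ l, l₀ ≤ l ∧ Odd l := ⟨2 * l₀ + 1, by omega, ⟨l₀, rfl⟩⟩
  have hl1 : 1 ≤ l := hlo.pos
  obtain ⟨⟨L, lam, Ls, lam1, lam2, hL, hLδ, hlam, hk, hlamL, h1, h2, tL, t1, t2, posL, hlt, z1, z2,
    node, pos⟩, hABl⟩ := hl₀ l hll
  obtain ⟨hA, hB⟩ := hABl hlo L lam hL hLδ hk hlamL h1 h2
  obtain ⟨n₀, hn₀⟩ := eventually_atTop.mp (t1.eventually (lt_mem_nhds hlam))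
  refine ⟨{ l := l, L := L, lam := lam, Ls := fun i => Ls (i + n₀), lam1 := fun i => lam1 (i + n₀),
            lam2 := fun i => lam2 (i + n₀), hl := hlo, hL := hL, hlam := hlam, h1 := h1, h2 := h2,
            tL := (tendsto_add_atTop_iff_nat n₀).mpr tL,
            t1 := (tendsto_add_atTop_iff_nat n₀).mpr t1,
            t2 := (tendsto_add_atTop_iff_nat n₀).mpr t2,
            posL := fun i => posL _, pos1 := fun i => hn₀ _ (by omega), lt := fun i => hlt _,
            z1 := fun i => z1 _, z2 := fun i => z2 _, node := node, pos := pos,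
            nonres := nonres hN hl1 hL h1 node h2 pos, condA := hA, condB := hB }⟩

end Pool.Agent.helper13.BN
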