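import Pool.Agent.helper68.BN.Rep
import Pool.Agent.helper13.BN.Defs2

set_option autoImplicit false

/-!
# Hölder estimate near a boundary point
-/

open MeasureTheory Filter Topology Set Metric
open scoped ContDiff Gradient RealInnerProductSpace ENNReal

noncomputable section
namespace Pool.Agent.helper13.BN
variable {N : ℕ}

private theorem hold_isOpen_ann (N : ℕ) (ρ : ℝ) : IsOpen (ann N ρ) := by
  unfold ann
  exact (isOpen_lt continuous_const continuous_norm).inter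
    (isOpen_lt continuous_norm continuous_const)

/-- two representatives coincide -/
theorem isRep_unique_hold {Ω : Set (E N)} (hΩ : IsOpen Ω) {w : LV N} {v v' : E N → ℝ}
    (h : IsRep Ω w v) (h' : IsRep Ω w v') : v = v' := by
  obtain ⟨h1, h2, h3⟩ := h
  obtain ⟨h1', h2', h3'⟩ := h'
  have hae : v =ᵐ[volume] v' := h3.symm.trans h3'
  have hon : EqOn v v' Ω := by
    apply MeasureTheory.Measure.eqOn_open_of_ae_eq (μ := volume) _ hΩ h1 h1'
    exact ae_restrict_of_ae hae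
  funext x
  by_cases hx : x ∈ Ω
  · exact hon hx
  · rw [h2 x hx, h2' x hx]

theorem hold_axis (hN : 3 ≤ N) {ρ : ℝ} (hρ : 0 < ρ) (hρ1 : ρ < 1) : ∃ C d₁ : ℝ, 0 < C ∧ 0 < d₁ ∧
    ∀ (w : LV N) (v g : E N → ℝ) (K : ℝ), 0 ≤ K → IsRep (ann N ρ) w v →
      AEStronglyMeasurable g (volume.restrict (ann N ρ)) → Weak (ann N ρ) w g →
      (∀ᵐ x, x ∈ ann N ρ → |g x| ≤ K) → (∀ x ∈ ann N ρ, |v x| ≤ K * (1 - ‖x‖)) →
      ∀ x₀ : E N, 1 - d₁ < ‖x₀‖ → ‖x₀‖ < 1 → ∀ x ∈ ann N ρ,
        |v x - v x₀| ≤ C * K * ‖x - x₀‖ ^ ((2 : ℝ) / 3) := by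
  obtain ⟨C, hC, hrep⟩ := exists_rep N hN
  refine ⟨12 * C + 18, (1 - ρ) / 2, by positivity, by linarith, ?_⟩
  intro w v g K hK hv hgm hw hg hb x₀ hx1 hx2 x hx
  obtain ⟨v', hc', h0', hf', hest'⟩ := hrep (ann N ρ) (hold_isOpen_ann N ρ) w g K hgm hw hg
  have hvv : v = v' := isRep_unique_hold (hold_isOpen_ann N ρ) hv ⟨hc', h0', hf'⟩
  rw [← hvv] at hest'
  set d := 1 - ‖x₀‖ with hd
  have hd0 : 0 < d := by rw [hd]; linarith
  have hd1 : d < (1 - ρ) / 2 := by rw [hd]; linarith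
  have hdle : d ≤ 1 := by linarith
  set δ := ‖x - x₀‖ with hδ
  have hδ0 : 0 ≤ δ := norm_nonneg _
  have hx₀Ω : x₀ ∈ ann N ρ := ⟨by linarith, hx2⟩
  have hnx : |‖x‖ - ‖x₀‖| ≤ δ := abs_norm_sub_norm_le x x₀
  have hnx' := abs_le.mp hnx
  have hδ2 : δ ≤ 2 := by
    rw [hδ]
    refine (norm_sub_le _ _).trans ?_
    have := hx.2
    linarith
  rcases eq_or_lt_of_le hδ0 with hδz | hδpos
  · have : x = x₀ := by
      rw [← sub_eq_zero, ← norm_eq_zero, ← hδ, ← hδz]
    rw [this, sub_self, abs_zero]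
    positivity
  -- `δ ≤ 2 δ^{2/3}`
  have hδp : 0 < δ ^ ((2 : ℝ) / 3) := Real.rpow_pos_of_pos hδpos _
  have hδle : δ ≤ 2 * δ ^ ((2 : ℝ) / 3) := by
    have h1 : δ = δ ^ ((1 : ℝ) / 3) * δ ^ ((2 : ℝ) / 3) := by
      rw [← Real.rpow_add hδpos]
      norm_num
    have h2 : δ ^ ((1 : ℝ) / 3) ≤ 2 := by
      calc δ ^ ((1 : ℝ) / 3) ≤ (2 : ℝ) ^ ((1 : ℝ) / 3) :=
            Real.rpow_le_rpow hδ0 hδ2 (by norm_num)
        _ ≤ (2 : ℝ) ^ (1 : ℝ) := Real.rpow_le_rpow_of_exponent_le (by norm_num) (by norm_num)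
        _ = 2 := Real.rpow_one 2
    calc δ = δ ^ ((1 : ℝ) / 3) * δ ^ ((2 : ℝ) / 3) := h1
      _ ≤ 2 * δ ^ ((2 : ℝ) / 3) := mul_le_mul_of_nonneg_right h2 hδp.le
  have hfin : ∀ A : ℝ, 0 ≤ A → A ≤ 12 * C + 18 →
      A * K * δ ^ ((2 : ℝ) / 3) ≤ (12 * C + 18) * K * δ ^ ((2 : ℝ) / 3) := by
    intro A _ hA
    apply mul_le_mul_of_nonneg_right _ hδp.le
    exact mul_le_mul_of_nonneg_right hA hK
  -- balls
  have hball : ∀ r : ℝ, 2 * r ≤ d → ball x₀ (2 * r) ⊆ ann N ρ := by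
    intro r hr z hz
    rw [mem_ball, dist_eq_norm] at hz
    have h1 := abs_le.mp (abs_norm_sub_norm_le z x₀)
    constructor
    · linarith [h1.1]
    · linarith [h1.2]
  have hbM : ∀ r : ℝ, 2 * r ≤ d → ∀ z ∈ ball x₀ (2 * r), |v z| ≤ 2 * K * d := by
    intro r hr z hz
    have h2 := hb z (hball r hr hz)
    rw [mem_ball, dist_eq_norm] at hz
    have h1 := abs_le.mp (abs_norm_sub_norm_le z x₀)
    have h3 : 1 - ‖z‖ ≤ 2 * d := by linarith [h1.1]
    calc |v z| ≤ K * (1 - ‖z‖) := h2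
      _ ≤ K * (2 * d) := mul_le_mul_of_nonneg_left h3 hK
      _ = 2 * K * d := by ring
  have hsymm : |v x - v x₀| = |v x₀ - v x| := abs_sub_comm _ _
  have hnorm : ‖x₀ - x‖ = δ := by rw [hδ, norm_sub_rev]
  rcases le_or_gt (d / 4) δ with hfar | hnear
  · -- far
    have h1 := hb x hx
    have h2 := hb x₀ hx₀Ω
    have h3 : |v x - v x₀| ≤ K * (1 - ‖x‖) + K * (1 - ‖x₀‖) := (abs_sub _ _).trans (by linarith)
    have h4 : K * (1 - ‖x‖) + K * (1 - ‖x₀‖) ≤ K * (9 * δ) := by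
      rw [← mul_add]
      apply mul_le_mul_of_nonneg_left _ hK
      linarith [hnx'.1]
    calc |v x - v x₀| ≤ K * (9 * δ) := h3.trans h4
      _ ≤ K * (9 * (2 * δ ^ ((2 : ℝ) / 3))) := by
          apply mul_le_mul_of_nonneg_left _ hK
          linarith
      _ = 18 * K * δ ^ ((2 : ℝ) / 3) := by ring
      _ ≤ _ := hfin 18 (by norm_num) (by linarith)
  · rcases le_or_gt δ (d ^ 2 / 8) with hs | hl
    · -- r = (d δ)^{1/3}
      set r := (d * δ) ^ ((1 : ℝ) / 3) with hr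
      have hdδ : 0 < d * δ := mul_pos hd0 hδpos
      have hrpos : 0 < r := Real.rpow_pos_of_pos hdδ _
      have hr3 : r ^ 3 = d * δ := by
        rw [hr, ← Real.rpow_natCast, ← Real.rpow_mul hdδ.le]
        norm_num
      have hr2 : r ^ 2 = (d * δ) ^ ((2 : ℝ) / 3) := by
        rw [hr, ← Real.rpow_natCast, ← Real.rpow_mul hdδ.le]
        norm_num
      have hr2le : r ^ 2 ≤ δ ^ ((2 : ℝ) / 3) := by
        rw [hr2]
        apply Real.rpow_le_rpow hdδ.le _ (by norm_num)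
        calc d * δ ≤ 1 * δ := mul_le_mul_of_nonneg_right hdle hδ0
          _ = δ := one_mul _
      have h2r : 2 * r ≤ d := by
        have h3 : (2 * r) ^ 3 ≤ d ^ 3 := by
          calc (2 * r) ^ 3 = 8 * r ^ 3 := by ring
            _ = 8 * (d * δ) := by rw [hr3]
            _ ≤ 8 * (d * (d ^ 2 / 8)) := by
                apply mul_le_mul_of_nonneg_left _ (by norm_num)
                exact mul_le_mul_of_nonneg_left hs hd0.le
            _ = d ^ 3 := by ring
        exact le_of_pow_le_pow_left₀ (by norm_num) hd0.le h3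
      have hδr : δ ≤ r := by
        have h3 : δ ^ 3 ≤ r ^ 3 := by
          rw [hr3]
          have e1 : δ ≤ 1 := by linarith
          have e2 : δ * δ ≤ d * 1 := mul_le_mul (by linarith) e1 hδ0 hd0.le
          calc δ ^ 3 = δ * δ * δ := by ring
            _ ≤ d * 1 * δ := mul_le_mul_of_nonneg_right e2 hδ0
            _ = d * δ := by ring
        exact le_of_pow_le_pow_left₀ (by norm_num) hrpos.le h3
      have h5 := hest' x₀ x r (2 * K * d) hrpos (hball r h2r) (by rw [hnorm]; exact hδr)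
        (hbM r h2r)
      rw [hnorm] at h5
      have h6 : 2 * K * d * δ / r = 2 * K * r ^ 2 := by
        rw [div_eq_iff hrpos.ne']
        calc 2 * K * d * δ = 2 * K * (d * δ) := by ring
          _ = 2 * K * r ^ 3 := by rw [hr3]
          _ = _ := by ring
      rw [h6] at h5
      rw [hsymm]
      calc |v x₀ - v x| ≤ C * (K * r ^ 2 + 2 * K * r ^ 2) := h5
        _ = 3 * C * K * r ^ 2 := by ring
        _ ≤ 3 * C * K * δ ^ ((2 : ℝ) / 3) := by
            apply mul_le_mul_of_nonneg_left hr2le (by positivity)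
        _ ≤ _ := hfin (3 * C) (by positivity) (by linarith)
    · -- r = d/2
      have h5 := hest' x₀ x (d / 2) (2 * K * d) (by linarith) (hball (d / 2) (by linarith))
        (by rw [hnorm]; linarith) (hbM (d / 2) (by linarith))
      rw [hnorm] at h5
      have h6 : 2 * K * d * δ / (d / 2) = 4 * K * δ := by
        field_simp
        ring
      rw [h6] at h5
      rw [hsymm]
      have h7 : K * (d / 2) ^ 2 ≤ 2 * K * δ := by
        have : (d / 2) ^ 2 ≤ 2 * δ := by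
          have e : (d / 2) ^ 2 = d ^ 2 / 4 := by ring
          rw [e]; linarith
        calc K * (d / 2) ^ 2 ≤ K * (2 * δ) := mul_le_mul_of_nonneg_left this hK
          _ = 2 * K * δ := by ring
      calc |v x₀ - v x| ≤ C * (K * (d / 2) ^ 2 + 4 * K * δ) := h5
        _ ≤ C * (2 * K * δ + 4 * K * δ) := by
            apply mul_le_mul_of_nonneg_left _ hC.le
            linarith
        _ = 6 * C * K * δ := by ring
        _ ≤ 6 * C * K * (2 * δ ^ ((2 : ℝ) / 3)) := by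
            apply mul_le_mul_of_nonneg_left hδle (by positivity)
        _ = (12 * C) * K * δ ^ ((2 : ℝ) / 3) := by ring
        _ ≤ _ := hfin (12 * C) (by positivity) (by linarith)

end Pool.Agent.helper13.BN
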